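import Pool.Agent.helper56.P2.SpecU

/-!
Row p2:UR1E (MP_063734_an): the energy inequality with a regularisation.
-/

set_option autoImplicit false

namespace Pool.Agent.P2U

open MeasureTheory Set Filter Topology Metric Complex
open scoped ENNReal ContDiff

theorem UR1E_dir {f : ℂ × ℂ → ℂ} {U : Set (ℂ × ℂ)} (hf : AnalyticOnNhd ℂ f U) (w : ℂ × ℂ) :
    AnalyticOnNhd ℂ (fun p => fderiv ℂ f p w) U := fun p hp =>
  ((ContinuousLinearMap.apply ℂ ℂ w).analyticAt (fderiv ℂ f p)).comp (hf.fderiv p hp)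

theorem UR1E_open (a r : ℝ) : IsOpen (TB a r) :=
  (isOpen_lt continuous_fst.norm continuous_const).inter
    (isOpen_lt continuous_snd.norm continuous_const)

/-- regularity of the data of a pair of holomorphic functions -/
theorem UR1E_reg {P Q : ℂ × ℂ → ℂ} {a r : ℝ} (h : Hol P Q a r) :
    AnalyticOnNhd ℂ (cx P Q) (TB a r) ∧ AnalyticOnNhd ℂ (cv P Q) (TB a r) ∧
    ContinuousOn (ef P Q) (TB a r) ∧ ContinuousOn (nn P Q) (TB a r) ∧
    ContinuousOn (fun p => fderiv ℂ (cx P Q) p (ef P Q p)) (TB a r) ∧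
    ContinuousOn (fun p => fderiv ℂ (cv P Q) p (ef P Q p)) (TB a r) ∧
    ContinuousOn (om P Q) (TB a r) ∧ ∀ p, 0 ≤ om P Q p := by
  have hX : AnalyticOnNhd ℂ (cx P Q) (TB a r) :=
    (h.hQ.mul (UR1E_dir h.hP (1, 0))).sub (h.hP.mul (UR1E_dir h.hQ (1, 0)))
  have hV : AnalyticOnNhd ℂ (cv P Q) (TB a r) :=
    (h.hQ.mul (UR1E_dir h.hP (0, 1))).sub (h.hP.mul (UR1E_dir h.hQ (0, 1)))
  have hef : ContinuousOn (ef P Q) (TB a r) := hV.continuousOn.prodMk hX.continuousOn.neg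
  have h1 : ContinuousOn (fun p => fderiv ℂ (cx P Q) p (ef P Q p)) (TB a r) :=
    hX.fderiv.continuousOn.clm_apply hef
  have h2 : ContinuousOn (fun p => fderiv ℂ (cv P Q) p (ef P Q p)) (TB a r) :=
    hV.fderiv.continuousOn.clm_apply hef
  refine ⟨hX, hV, hef, (hX.continuousOn.mul h2).sub (hV.continuousOn.mul h1), h1, h2, ?_, ?_⟩
  · refine ContinuousOn.inv₀ ?_ fun p hp => ?_
    · exact ((h.hP.continuousOn.norm.pow 2).add (h.hQ.continuousOn.norm.pow 2)).pow 2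
    · have : 0 < ‖P p‖ ^ 2 + ‖Q p‖ ^ 2 := by
        rcases h.ne p hp with h0 | h0
        · have := norm_pos_iff.2 h0
          positivity
        · have := norm_pos_iff.2 h0
          positivity
      positivity
  · intro p
    unfold om
    positivity

theorem UR1E_int {U : Set (ℂ × ℂ)} (hU : IsOpen U) {f : ℂ × ℂ → ℝ} (hf : ContinuousOn f U)
    {K : Set (ℂ × ℂ)} (hK : IsCompact K) (hKU : K ⊆ U) (h0 : ∀ p ∉ K, f p = 0) :
    Integrable f := by
  have hts : tsupport f ⊆ K :=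
    closure_minimal (fun p hp => by_contra fun h => hp (h0 p h)) hK.isClosed
  have hc : Continuous f := hf.continuous_of_tsupport_subset hU (hts.trans hKU)
  exact hc.integrable_of_hasCompactSupport (hK.of_isClosed_subset (isClosed_tsupport f) hts)

theorem UR1E_le_toReal {f : ℂ × ℂ → ℝ} {K : ℝ} (hK : 0 ≤ K)
    (h : ∫⁻ p, ENNReal.ofReal (f p) ≤ ENNReal.ofReal K) : ∫ p, f p ≤ K := by
  by_cases hf : Integrable f
  · rw [integral_eq_lintegral_pos_part_sub_lintegral_neg_part hf]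
    have h1 := ENNReal.toReal_le_of_le_ofReal hK h
    have h2 : 0 ≤ (∫⁻ p, ENNReal.ofReal (- f p)).toReal := ENNReal.toReal_nonneg
    linarith
  · rw [integral_undef hf]
    exact hK

/-- the logarithmic quotients -/
theorem UR1E_log (x v ε s : ℝ) (hx : 0 ≤ x) (hv : 0 ≤ v) (hε : 0 < ε) (hs : 0 < s) (hs1 : s < 1) :
    0 ≤ Real.log (x + 1 * v + ε) - Real.log (x + s ^ 4 * v + ε) ∧
    Real.log (x + 1 * v + ε) - Real.log (x + s ^ 4 * v + ε) ≤ 4 * Real.log (1 / s) ∧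
    (Real.log (x + 1 * v + ε) - Real.log (x + s ^ 4 * v + ε)) * x ≤
      Real.log ((x + v) / (x + (s ^ 2) ^ 2 * v)) * x := by
  have hs4 : 0 < s ^ 4 := by positivity
  have hs41 : s ^ 4 ≤ 1 := pow_le_one₀ hs.le hs1.le
  have hsv : s ^ 4 * v ≤ v := by nlinarith
  have hd1 : 0 < x + 1 * v + ε := by positivity
  have hd2 : 0 < x + s ^ 4 * v + ε := by positivity
  refine ⟨?_, ?_, ?_⟩
  · rw [sub_nonneg]
    exact Real.log_le_log hd2 (by linarith)
  · rw [← Real.log_div hd1.ne' hd2.ne',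
      show 4 * Real.log (1 / s) = Real.log ((1 / s) ^ 4) by rw [Real.log_pow]; norm_num]
    refine Real.log_le_log (by positivity) ?_
    rw [div_le_iff₀ hd2, div_pow, one_pow, div_mul_eq_mul_div, one_mul, le_div_iff₀ hs4]
    nlinarith
  · rcases eq_or_lt_of_le hx with h0 | h0
    · rw [← h0, mul_zero, mul_zero]
    · refine mul_le_mul_of_nonneg_right ?_ hx
      rw [← Real.log_div hd1.ne' hd2.ne']
      have hd3 : 0 < x + (s ^ 2) ^ 2 * v := by positivity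
      refine Real.log_le_log (by positivity) ?_
      rw [div_le_div_iff₀ hd2 hd3]
      have e : (s ^ 2) ^ 2 = s ^ 4 := by ring
      rw [e]
      nlinarith

/-- The corrected form of `UR1E_stmt`: the summand `D * (P0 / log (t / s) + C * t ^ (α / 2))` is
outside of the integral. -/
def UR1F_stmt : Prop := ∀ C0 α : ℝ, 1 ≤ C0 → 0 < α → α ≤ 1 → ∃ C : ℝ, 0 < C ∧
  ∀ (P Q : ℂ × ℂ → ℂ) (u : ℂ × ℂ → ℝ) (D τ : ℝ), Dat P Q u D C0 α τ → τ ≤ 1 →
  ∀ s t : ℝ, 0 < s → s ≤ t ^ 2 → 0 < t → t ≤ τ / 4 → 1 / s ≤ D →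
  ∀ P0 : ℝ, 0 ≤ P0 → ∫⁻ p in TB 2 s, ENNReal.ofReal (PP P Q (s ^ 2) p * ‖cx P Q p‖ ^ 2 * om P Q p) ≤
    ENNReal.ofReal (D * s ^ 2 * P0) → ∀ ε : ℝ, 0 < ε →
  (∫ p, BB s t p * (s ^ 4 * ‖nn P Q p‖ ^ 2 / (‖cx P Q p‖ ^ 2 + s ^ 4 * ‖cv P Q p‖ ^ 2 + ε) ^ 2) *
    om P Q p) ≤
    (∫ p, BB s t p * ((‖nn P Q p‖ ^ 2 + ε * (‖fderiv ℂ (cx P Q) p (ef P Q p)‖ ^ 2 +
      ‖fderiv ℂ (cv P Q) p (ef P Q p)‖ ^ 2)) / (‖cx P Q p‖ ^ 2 + ‖cv P Q p‖ ^ 2 + ε) ^ 2) *
      om P Q p) +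
    D * (P0 / Real.log (t / s) + C * t ^ (α / 2))

theorem UR1F (hIBP : UIBP_stmt) (hLEV : ULEV_stmt) (hTST : UTST_stmt) (hHH : UHH_stmt)
    (hSID : USID_stmt) (hTSB : UTSB_stmt) : UR1F_stmt := by
  intro C0 α hC0 hα hα1
  obtain ⟨C1, hC1, hHH1⟩ := hHH C0 α hC0 hα hα1
  obtain ⟨C2, hC2, hSID1⟩ := hSID C0 α hC0 hα hα1
  refine ⟨16 * C1 + 48 * C2, by positivity, ?_⟩
  intro P Q u D τ hDat hτ1 s t hs hst ht htτ hsD P0 hP0 hPP ε hε
  have hHH2 := hHH1 P Q u D τ hDat hτ1 s t hs hst ht htτ hsD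
  have hSID2 := hSID1 P Q u D τ hDat hτ1 s t hs hst ht htτ hsD
  have ht4 : t ≤ 1 / 4 := by linarith
  obtain ⟨hBc, -, -, hB01, -, hBout, hBlv⟩ := hTST s t hs hst ht ht4
  obtain ⟨hHc, hH01, -, -, -, -⟩ := hTSB s t hs hst ht ht4
  obtain ⟨hX, hV, hef, hnn, hX', hV', hom, hom0⟩ := UR1E_reg hDat.hol
  have hD : 0 < D := lt_of_lt_of_le (by positivity) hsD
  have hst4 : s ≤ t / 4 := by nlinarith
  have hs1 : s < 1 := by linarith
  have hL : 0 < Real.log (t / s) := Real.log_pos (by rw [lt_div_iff₀ hs]; linarith)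
  have hLs : Real.log (1 / s) ≤ 2 * Real.log (t / s) := by
    have e1 : Real.log s ≤ 2 * Real.log t := by
      have := Real.log_le_log hs hst
      rw [Real.log_pow] at this
      exact_mod_cast this
    rw [Real.log_div ht.ne' hs.ne', Real.log_div one_ne_zero hs.ne', Real.log_one]
    linarith
  have hls0 : 0 ≤ Real.log (1 / s) := Real.log_nonneg (by rw [le_div_iff₀ hs]; linarith)
  set L := Real.log (t / s) with hLdef
  set X := cx P Q with hXdef
  set V := cv P Q with hVdef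
  set B := BB s t with hBdef
  have hUo := UR1E_open 4 τ
  -- the compact set
  set K : Set (ℂ × ℂ) := closedBall (0 : ℂ) 2 ×ˢ closedBall (0 : ℂ) t with hK
  have hKc : IsCompact K := (isCompact_closedBall 0 2).prod (isCompact_closedBall 0 t)
  have hKU : K ⊆ TB 4 τ := by
    rintro p ⟨h1, h2⟩
    rw [mem_closedBall_zero_iff] at h1 h2
    exact ⟨by linarith, by linarith⟩
  have hKT : ∀ p ∉ K, p ∉ TB 2 t := by
    intro p hp h
    exact hp ⟨mem_closedBall_zero_iff.2 h.1.le, mem_closedBall_zero_iff.2 h.2.le⟩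
  have hTU : TB 2 t ⊆ TB 4 τ := fun p hp => ⟨by linarith [hp.1], by linarith [hp.2]⟩
  have hBsupp : tsupport B ⊆ K := by
    refine closure_minimal (fun p hp => ?_) hKc.isClosed
    by_contra h
    exact hp (hBout p (hKT p h)).1
  have hBcs : HasCompactSupport B := hKc.of_isClosed_subset (isClosed_tsupport B) hBsupp
  -- the functions `A`
  have hApos : ∀ a : ℝ, 0 ≤ a → ∀ q, 0 < ‖X q‖ ^ 2 + a * ‖V q‖ ^ 2 + ε := fun a ha q => by
    have : 0 ≤ a * ‖V q‖ ^ 2 := by positivity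
    positivity
  have hAcd : ∀ a : ℝ, 0 ≤ a → ContDiffOn ℝ 2
      (fun q => Real.log (‖X q‖ ^ 2 + a * ‖V q‖ ^ 2 + ε)) (TB 4 τ) := by
    intro a ha
    have e1 : ContDiffOn ℝ 2 X (TB 4 τ) := (hX.contDiffOn hUo.uniqueDiffOn).restrict_scalars ℝ
    have e2 : ContDiffOn ℝ 2 V (TB 4 τ) := (hV.contDiffOn hUo.uniqueDiffOn).restrict_scalars ℝ
    refine ContDiffOn.log ?_ fun q _ => (hApos a ha q).ne'
    exact ((e1.norm_sq ℝ).add (contDiffOn_const.mul (e2.norm_sq ℝ))).add contDiffOn_const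
  have hLvA : ∀ a : ℝ, 0 ≤ a → ∀ p ∈ TB 4 τ,
      Lv (fun q => Real.log (‖X q‖ ^ 2 + a * ‖V q‖ ^ 2 + ε)) p (ef P Q p) =
      (a * ‖nn P Q p‖ ^ 2 + ε * (‖fderiv ℂ X p (ef P Q p)‖ ^ 2 +
        a * ‖fderiv ℂ V p (ef P Q p)‖ ^ 2)) / (‖X p‖ ^ 2 + a * ‖V p‖ ^ 2 + ε) ^ 2 :=
    fun a ha p hp => hLEV.1 X V a ε p (ef P Q p) (hX p hp) (hV p hp) ha hε.le (hApos a ha p)
  have hIB : ∀ a : ℝ, 0 ≤ a →
      ∫ p, Lv (fun q => Real.log (‖X q‖ ^ 2 + a * ‖V q‖ ^ 2 + ε)) p (ef P Q p) * B p * om P Q p =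
      ∫ p, Real.log (‖X p‖ ^ 2 + a * ‖V p‖ ^ 2 + ε) * Lv B p (ef P Q p) * om P Q p :=
    fun a ha => hIBP P Q τ hDat.hol _ B (hAcd a ha) hBc hBcs (hBsupp.trans hKU)
  have hs40 : (0 : ℝ) ≤ s ^ 4 := by positivity
  -- integrability
  have hBcont : ContinuousOn B (TB 4 τ) := hBc.continuous.continuousOn
  have hLvB : ContinuousOn (fun p => Lv B p (ef P Q p)) (TB 4 τ) := by
    have e1 : ContDiff ℝ 1 (fderiv ℝ B) := hBc.fderiv_right (m := 1) (by norm_num)
    have e2 : ContinuousOn (fderiv ℝ (fderiv ℝ B)) (TB 4 τ) :=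
      (e1.continuous_fderiv (by norm_num)).continuousOn
    have e3 : ContinuousOn (fun p => I • ef P Q p) (TB 4 τ) := hef.const_smul I
    exact (((e2.clm_apply hef).clm_apply hef).add ((e2.clm_apply e3).clm_apply e3)).div_const 4
  have hden : ∀ a : ℝ, 0 ≤ a → ContinuousOn (fun p => (‖X p‖ ^ 2 + a * ‖V p‖ ^ 2 + ε) ^ 2)
      (TB 4 τ) := fun a _ =>
    (((hX.continuousOn.norm.pow 2).add (continuousOn_const.mul (hV.continuousOn.norm.pow 2))).add
      continuousOn_const).pow 2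
  have hden0 : ∀ a : ℝ, 0 ≤ a → ∀ p, (‖X p‖ ^ 2 + a * ‖V p‖ ^ 2 + ε) ^ 2 ≠ 0 := fun a ha p =>
    (pow_pos (hApos a ha p) 2).ne'
  have hLog : ∀ a : ℝ, 0 ≤ a → ContinuousOn (fun p => Real.log (‖X p‖ ^ 2 + a * ‖V p‖ ^ 2 + ε))
      (TB 4 τ) := fun a ha => (hAcd a ha).continuousOn
  have hI1 : Integrable (fun p => B p * (s ^ 4 * ‖nn P Q p‖ ^ 2 /
      (‖X p‖ ^ 2 + s ^ 4 * ‖V p‖ ^ 2 + ε) ^ 2) * om P Q p) := by
    refine UR1E_int hUo ?_ hKc hKU fun p hp => by rw [(hBout p (hKT p hp)).1, zero_mul, zero_mul]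
    exact (hBcont.mul ((continuousOn_const.mul (hnn.norm.pow 2)).div (hden _ hs40)
      fun p _ => hden0 _ hs40 p)).mul hom
  have hI2 : Integrable (fun p => (s ^ 4 * ‖nn P Q p‖ ^ 2 + ε * (‖fderiv ℂ X p (ef P Q p)‖ ^ 2 +
        s ^ 4 * ‖fderiv ℂ V p (ef P Q p)‖ ^ 2)) / (‖X p‖ ^ 2 + s ^ 4 * ‖V p‖ ^ 2 + ε) ^ 2 *
        B p * om P Q p) := by
    refine UR1E_int hUo ?_ hKc hKU fun p hp => by rw [(hBout p (hKT p hp)).1, mul_zero, zero_mul]
    exact ((((continuousOn_const.mul (hnn.norm.pow 2)).add (continuousOn_const.mul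
      ((hX'.norm.pow 2).add (continuousOn_const.mul (hV'.norm.pow 2))))).div (hden _ hs40)
      fun p _ => hden0 _ hs40 p).mul hBcont).mul hom
  have hI3 : ∀ a : ℝ, 0 ≤ a → Integrable (fun p =>
      Real.log (‖X p‖ ^ 2 + a * ‖V p‖ ^ 2 + ε) * Lv B p (ef P Q p) * om P Q p) := fun a ha => by
    refine UR1E_int hUo ?_ hKc hKU fun p hp => by
      rw [(hBout p (hKT p hp)).2, mul_zero, zero_mul]
    exact ((hLog a ha).mul hLvB).mul hom
  -- step 1
  have hstep1 : ∫ p, B p * (s ^ 4 * ‖nn P Q p‖ ^ 2 /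
      (‖X p‖ ^ 2 + s ^ 4 * ‖V p‖ ^ 2 + ε) ^ 2) * om P Q p ≤
      ∫ p, Real.log (‖X p‖ ^ 2 + s ^ 4 * ‖V p‖ ^ 2 + ε) * Lv B p (ef P Q p) * om P Q p := by
    rw [← hIB _ hs40]
    have e1 : ∫ p, Lv (fun q => Real.log (‖X q‖ ^ 2 + s ^ 4 * ‖V q‖ ^ 2 + ε)) p (ef P Q p) *
        B p * om P Q p = ∫ p, (s ^ 4 * ‖nn P Q p‖ ^ 2 + ε * (‖fderiv ℂ X p (ef P Q p)‖ ^ 2 +
        s ^ 4 * ‖fderiv ℂ V p (ef P Q p)‖ ^ 2)) / (‖X p‖ ^ 2 + s ^ 4 * ‖V p‖ ^ 2 + ε) ^ 2 *
        B p * om P Q p := by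
      refine integral_congr_ae (Eventually.of_forall fun p => ?_)
      simp only
      by_cases hp : p ∈ TB 4 τ
      · rw [hLvA _ hs40 p hp]
      · have : p ∉ TB 2 t := fun h => hp (hTU h)
        rw [(hBout p this).1, mul_zero, mul_zero]
    rw [e1]
    refine integral_mono hI1 hI2 fun p => ?_
    simp only
    refine mul_le_mul_of_nonneg_right ?_ (hom0 p)
    rw [mul_comm (B p)]
    refine mul_le_mul_of_nonneg_right ?_ (hB01 p).1
    refine div_le_div_of_nonneg_right ?_ (by positivity)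
    have : 0 ≤ ε * (‖fderiv ℂ X p (ef P Q p)‖ ^ 2 + s ^ 4 * ‖fderiv ℂ V p (ef P Q p)‖ ^ 2) := by
      positivity
    linarith
  -- step 2
  have hstep2 : ∫ p, B p * ((‖nn P Q p‖ ^ 2 + ε * (‖fderiv ℂ X p (ef P Q p)‖ ^ 2 +
      ‖fderiv ℂ V p (ef P Q p)‖ ^ 2)) / (‖X p‖ ^ 2 + ‖V p‖ ^ 2 + ε) ^ 2) * om P Q p =
      ∫ p, Real.log (‖X p‖ ^ 2 + 1 * ‖V p‖ ^ 2 + ε) * Lv B p (ef P Q p) * om P Q p := by
    rw [← hIB 1 zero_le_one]
    refine integral_congr_ae (Eventually.of_forall fun p => ?_)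
    simp only
    by_cases hp : p ∈ TB 4 τ
    · rw [hLvA 1 zero_le_one p hp]
      ring
    · have : p ∉ TB 2 t := fun h => hp (hTU h)
      rw [(hBout p this).1, mul_zero, zero_mul, mul_comm]
  -- step 3
  set F : ℂ × ℂ → ℝ := fun p => (Real.log (‖X p‖ ^ 2 + 1 * ‖V p‖ ^ 2 + ε) -
    Real.log (‖X p‖ ^ 2 + s ^ 4 * ‖V p‖ ^ 2 + ε)) * (- Lv B p (ef P Q p)) * om P Q p with hF
  have hstep3 : ∫ p, Real.log (‖X p‖ ^ 2 + s ^ 4 * ‖V p‖ ^ 2 + ε) * Lv B p (ef P Q p) * om P Q p =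
      (∫ p, Real.log (‖X p‖ ^ 2 + 1 * ‖V p‖ ^ 2 + ε) * Lv B p (ef P Q p) * om P Q p) +
      ∫ p, F p := by
    have e1 : ∫ p, F p = (∫ p, Real.log (‖X p‖ ^ 2 + s ^ 4 * ‖V p‖ ^ 2 + ε) *
        Lv B p (ef P Q p) * om P Q p) -
        ∫ p, Real.log (‖X p‖ ^ 2 + 1 * ‖V p‖ ^ 2 + ε) * Lv B p (ef P Q p) * om P Q p := by
      rw [← integral_sub (hI3 _ hs40) (hI3 1 zero_le_one)]
      refine integral_congr_ae (Eventually.of_forall fun p => ?_)
      simp only [hF]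
      ring
    rw [e1]
    ring
  -- the bound for `F`
  set f1 : ℂ × ℂ → ℝ≥0∞ := fun p => ENNReal.ofReal (HH s t p.2 * ‖V p‖ ^ 2 * om P Q p) with hf1
  set f2 : ℂ × ℂ → ℝ≥0∞ := fun p => ENNReal.ofReal (‖V p‖ * ‖X p‖ / max ‖p.2‖ s * om P Q p) with hf2
  set f3 : ℂ × ℂ → ℝ≥0∞ := fun p => ENNReal.ofReal (PP P Q (s ^ 2) p * ‖X p‖ ^ 2 * om P Q p) with hf3
  have hFb : ∀ p, ENNReal.ofReal (F p) ≤ (TB 2 t).indicator (fun p =>
      (ENNReal.ofReal (8 * Real.log (1 / s)) * f1 p + ENNReal.ofReal (24 * Real.log (1 / s) / L) * f2 p) +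
      (TB 2 s).indicator (fun p => ENNReal.ofReal (1 / (L * s ^ 2)) * f3 p) p) p := by
    intro p
    by_cases hp : p ∈ TB 2 t
    · rw [indicator_of_mem hp]
      obtain ⟨g1, g2, g3⟩ := UR1E_log (‖X p‖ ^ 2) (‖V p‖ ^ 2) ε s (by positivity) (by positivity)
        hε hs hs1
      have hlv := hBlv p hp (ef P Q p)
      have hefx : ‖(ef P Q p).1‖ = ‖V p‖ := rfl
      have hefv : ‖(ef P Q p).2‖ = ‖X p‖ := norm_neg _
      rw [hefx, hefv] at hlv
      set q := Real.log (‖X p‖ ^ 2 + 1 * ‖V p‖ ^ 2 + ε) -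
        Real.log (‖X p‖ ^ 2 + s ^ 4 * ‖V p‖ ^ 2 + ε) with hq
      have hM : 0 < max ‖p.2‖ s := lt_max_of_lt_right hs
      have hH0 := (hH01 p.2).1
      have ho := hom0 p
      have e1 : q * (2 * ‖V p‖ ^ 2 * HH s t p.2) * om P Q p ≤
          8 * Real.log (1 / s) * (HH s t p.2 * ‖V p‖ ^ 2 * om P Q p) := by
        have h0 : 0 ≤ 2 * ‖V p‖ ^ 2 * HH s t p.2 * om P Q p := by positivity
        nlinarith [mul_le_mul_of_nonneg_right g2 h0]
      have e2 : q * (6 * ‖V p‖ * ‖X p‖ / (L * max ‖p.2‖ s)) * om P Q p ≤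
          24 * Real.log (1 / s) / L * (‖V p‖ * ‖X p‖ / max ‖p.2‖ s * om P Q p) := by
        have h0 : 0 ≤ 6 * ‖V p‖ * ‖X p‖ / (L * max ‖p.2‖ s) * om P Q p := by positivity
        have h1 := mul_le_mul_of_nonneg_right g2 h0
        have h2 : 4 * Real.log (1 / s) * (6 * ‖V p‖ * ‖X p‖ / (L * max ‖p.2‖ s) * om P Q p) =
            24 * Real.log (1 / s) / L * (‖V p‖ * ‖X p‖ / max ‖p.2‖ s * om P Q p) := by
          field_simp
          ring
        linarith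
      have hsum : F p ≤ (8 * Real.log (1 / s) * (HH s t p.2 * ‖V p‖ ^ 2 * om P Q p) +
          24 * Real.log (1 / s) / L * (‖V p‖ * ‖X p‖ / max ‖p.2‖ s * om P Q p)) +
          q * (if ‖p.2‖ < s then ‖X p‖ ^ 2 / (L * s ^ 2) else 0) * om P Q p := by
        have h0 : F p = q * (- Lv B p (ef P Q p)) * om P Q p := rfl
        have h1 := mul_le_mul_of_nonneg_right (mul_le_mul_of_nonneg_left hlv g1) ho
        rw [h0]
        nlinarith
      have n1 : 0 ≤ 8 * Real.log (1 / s) := by positivity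
      have n2 : 0 ≤ 24 * Real.log (1 / s) / L := by positivity
      have m1 : 0 ≤ HH s t p.2 * ‖V p‖ ^ 2 * om P Q p := by positivity
      have m2 : 0 ≤ ‖V p‖ * ‖X p‖ / max ‖p.2‖ s * om P Q p := by positivity
      by_cases hps : p ∈ TB 2 s
      · rw [indicator_of_mem hps]
        rw [if_pos hps.2] at hsum
        have e3 : q * (‖X p‖ ^ 2 / (L * s ^ 2)) * om P Q p ≤
            1 / (L * s ^ 2) * (PP P Q (s ^ 2) p * ‖X p‖ ^ 2 * om P Q p) := by
          have h0 : 0 ≤ 1 / (L * s ^ 2) * om P Q p := by positivity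
          have h1 := mul_le_mul_of_nonneg_right g3 h0
          have h2 : q * (‖X p‖ ^ 2 / (L * s ^ 2)) * om P Q p =
              q * ‖X p‖ ^ 2 * (1 / (L * s ^ 2) * om P Q p) := by ring
          rw [h2]
          refine h1.trans (le_of_eq ?_)
          change PP P Q (s ^ 2) p * ‖X p‖ ^ 2 * _ = _
          ring
        have m3 : 0 ≤ PP P Q (s ^ 2) p * ‖X p‖ ^ 2 * om P Q p := by
          have h1 : 0 ≤ PP P Q (s ^ 2) p * ‖X p‖ ^ 2 := le_trans (by positivity) g3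
          positivity
        have n3 : 0 ≤ 1 / (L * s ^ 2) := by positivity
        rw [hf1, hf2, hf3]
        simp only
        rw [← ENNReal.ofReal_mul n1, ← ENNReal.ofReal_mul n2, ← ENNReal.ofReal_mul n3,
          ← ENNReal.ofReal_add (mul_nonneg n1 m1) (mul_nonneg n2 m2),
          ← ENNReal.ofReal_add (add_nonneg (mul_nonneg n1 m1) (mul_nonneg n2 m2))
            (mul_nonneg n3 m3)]
        exact ENNReal.ofReal_le_ofReal (by linarith)
      · rw [indicator_of_notMem hps, add_zero]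
        have hnlt : ¬ ‖p.2‖ < s := fun h => hps ⟨hp.1, h⟩
        rw [if_neg hnlt] at hsum
        rw [hf1, hf2]
        simp only
        rw [← ENNReal.ofReal_mul n1, ← ENNReal.ofReal_mul n2,
          ← ENNReal.ofReal_add (mul_nonneg n1 m1) (mul_nonneg n2 m2)]
        exact ENNReal.ofReal_le_ofReal (by linarith)
    · rw [indicator_of_notMem hp]
      have h0 : F p = 0 := by
        rw [hF]
        simp only
        rw [(hBout p hp).2, neg_zero, mul_zero, zero_mul]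
      rw [h0, ENNReal.ofReal_zero]
  have hTm : MeasurableSet (TB 2 t) := (UR1E_open 2 t).measurableSet
  have hTms : MeasurableSet (TB 2 s) := (UR1E_open 2 s).measurableSet
  have hm1 : AEMeasurable f1 (volume.restrict (TB 2 t)) := by
    have h1 : ContinuousOn (fun p : ℂ × ℂ => HH s t p.2 * ‖V p‖ ^ 2 * om P Q p) (TB 2 t) :=
      ((hHc.continuous.comp continuous_snd).continuousOn.mul
        ((hV.continuousOn.mono hTU).norm.pow 2)).mul (hom.mono hTU)
    exact (h1.aemeasurable hTm).ennreal_ofReal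
  have hm2 : AEMeasurable f2 (volume.restrict (TB 2 t)) := by
    have h1 : ContinuousOn (fun p : ℂ × ℂ => ‖V p‖ * ‖X p‖ / max ‖p.2‖ s * om P Q p) (TB 2 t) :=
      (((hV.continuousOn.mono hTU).norm.mul (hX.continuousOn.mono hTU).norm).div
        ((continuous_snd.norm.max continuous_const).continuousOn)
        fun p _ => (lt_max_of_lt_right hs).ne').mul (hom.mono hTU)
    exact (h1.aemeasurable hTm).ennreal_ofReal
  have hta : 0 ≤ t ^ (α / 2) := by positivity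
  have hFint : ∫ p, F p ≤ (8 * Real.log (1 / s) * (C1 * D * t ^ α / L) +
      24 * Real.log (1 / s) / L * (C2 * D * t ^ (α / 2))) + 1 / (L * s ^ 2) * (D * s ^ 2 * P0) := by
    refine UR1E_le_toReal (by positivity) ?_
    calc ∫⁻ p, ENNReal.ofReal (F p) ≤ ∫⁻ p, (TB 2 t).indicator (fun p =>
      (ENNReal.ofReal (8 * Real.log (1 / s)) * f1 p + ENNReal.ofReal (24 * Real.log (1 / s) / L) * f2 p) +
      (TB 2 s).indicator (fun p => ENNReal.ofReal (1 / (L * s ^ 2)) * f3 p) p) p :=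
          lintegral_mono hFb
      _ = ∫⁻ p in TB 2 t, ((ENNReal.ofReal (8 * Real.log (1 / s)) * f1 p +
          ENNReal.ofReal (24 * Real.log (1 / s) / L) * f2 p) +
          (TB 2 s).indicator (fun p => ENNReal.ofReal (1 / (L * s ^ 2)) * f3 p) p) :=
          lintegral_indicator hTm _
      _ = (ENNReal.ofReal (8 * Real.log (1 / s)) * (∫⁻ p in TB 2 t, f1 p) +
          ENNReal.ofReal (24 * Real.log (1 / s) / L) * ∫⁻ p in TB 2 t, f2 p) +
          ∫⁻ p in TB 2 t, (TB 2 s).indicator (fun p => ENNReal.ofReal (1 / (L * s ^ 2)) * f3 p) p := by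
          have a1 : AEMeasurable (fun p => ENNReal.ofReal (8 * Real.log (1 / s)) * f1 p)
            (volume.restrict (TB 2 t)) := hm1.const_mul _
          have a2 : AEMeasurable (fun p => ENNReal.ofReal (24 * Real.log (1 / s) / L) * f2 p)
            (volume.restrict (TB 2 t)) := hm2.const_mul _
          have a3 : AEMeasurable (fun p => ENNReal.ofReal (8 * Real.log (1 / s)) * f1 p +
            ENNReal.ofReal (24 * Real.log (1 / s) / L) * f2 p) (volume.restrict (TB 2 t)) := a1.add a2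
          rw [lintegral_add_left' a3, lintegral_add_left' a1,
            lintegral_const_mul' _ _ ENNReal.ofReal_ne_top,
            lintegral_const_mul' _ _ ENNReal.ofReal_ne_top]
      _ ≤ (ENNReal.ofReal (8 * Real.log (1 / s)) * ENNReal.ofReal (C1 * D * t ^ α / L) +
          ENNReal.ofReal (24 * Real.log (1 / s) / L) * ENNReal.ofReal (C2 * D * t ^ (α / 2))) +
          ENNReal.ofReal (1 / (L * s ^ 2)) * ENNReal.ofReal (D * s ^ 2 * P0) := by
          refine add_le_add (add_le_add ?_ ?_) ?_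
          · exact mul_le_mul_right hHH2 _
          · exact mul_le_mul_right hSID2 _
          · refine (setLIntegral_le_lintegral _ _).trans ?_
            rw [lintegral_indicator hTms, lintegral_const_mul' _ _ ENNReal.ofReal_ne_top]
            exact mul_le_mul_right hPP _
      _ = ENNReal.ofReal ((8 * Real.log (1 / s) * (C1 * D * t ^ α / L) +
          24 * Real.log (1 / s) / L * (C2 * D * t ^ (α / 2))) + 1 / (L * s ^ 2) * (D * s ^ 2 * P0)) := by
          rw [← ENNReal.ofReal_mul (by positivity), ← ENNReal.ofReal_mul (by positivity),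
            ← ENNReal.ofReal_mul (by positivity), ← ENNReal.ofReal_add (by positivity) (by positivity),
            ← ENNReal.ofReal_add (by positivity) (by positivity)]
  have htα : t ^ α ≤ t ^ (α / 2) :=
    Real.rpow_le_rpow_of_exponent_ge ht (by linarith) (by linarith)
  have hfin : (8 * Real.log (1 / s) * (C1 * D * t ^ α / L) +
      24 * Real.log (1 / s) / L * (C2 * D * t ^ (α / 2))) + 1 / (L * s ^ 2) * (D * s ^ 2 * P0) ≤
      D * (P0 / L + (16 * C1 + 48 * C2) * t ^ (α / 2)) := by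
    have hr : Real.log (1 / s) / L ≤ 2 := by
      rw [div_le_iff₀ hL]
      exact hLs
    have hr0 : 0 ≤ Real.log (1 / s) / L := by positivity
    have e1 : 8 * Real.log (1 / s) * (C1 * D * t ^ α / L) =
        (Real.log (1 / s) / L) * (8 * C1 * D * t ^ α) := by ring
    have e2 : 24 * Real.log (1 / s) / L * (C2 * D * t ^ (α / 2)) =
        (Real.log (1 / s) / L) * (24 * C2 * D * t ^ (α / 2)) := by ring
    have e3 : 1 / (L * s ^ 2) * (D * s ^ 2 * P0) = D * (P0 / L) := by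
      field_simp
    have e4 : (Real.log (1 / s) / L) * (8 * C1 * D * t ^ α) ≤ 2 * (8 * C1 * D * t ^ (α / 2)) :=
      mul_le_mul hr (mul_le_mul_of_nonneg_left htα (by positivity)) (by positivity) (by norm_num)
    have e5 : (Real.log (1 / s) / L) * (24 * C2 * D * t ^ (α / 2)) ≤
        2 * (24 * C2 * D * t ^ (α / 2)) := mul_le_mul_of_nonneg_right hr (by positivity)
    rw [e1, e2, e3]
    linarith
  rw [hstep2]
  calc ∫ p, B p * (s ^ 4 * ‖nn P Q p‖ ^ 2 /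
      (‖X p‖ ^ 2 + s ^ 4 * ‖V p‖ ^ 2 + ε) ^ 2) * om P Q p
      ≤ ∫ p, Real.log (‖X p‖ ^ 2 + s ^ 4 * ‖V p‖ ^ 2 + ε) * Lv B p (ef P Q p) * om P Q p := hstep1
    _ = _ := hstep3
    _ ≤ _ := add_le_add le_rfl (hFint.trans hfin)

end Pool.Agent.P2U
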