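import Pool.Agent.helper56.P2.SpecU

/-!
Row p2:UR3 (MP_063734_an): the second Manye trick.
-/

set_option autoImplicit false

namespace Pool.Agent.P2U

open MeasureTheory Set Filter Topology Metric Complex
open scoped ENNReal ContDiff

/-- the pointwise bound -/
theorem UR3_pt (x v a M ae s ε d : ℝ) (m : ℕ) (hx : 0 < x) (ha : 0 < a)
    (hs : 0 < s) (hs4 : s ≤ 1 / 4)
    (h : a * Real.sqrt (x ^ 2 + v ^ 2) ≤ ae + x * M) :
    Real.log ((x ^ 2 + v ^ 2) / (x ^ 2 + (s ^ 2) ^ 2 * v ^ 2)) ≤ 4 * Real.log (1 / s) ∧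
    (s * d ^ m < a ^ 2 → ae ^ 2 / x ^ 2 < s * d ^ m / 4 → Real.log (M ^ 2 / a ^ 2) < ε * m →
      Real.log ((x ^ 2 + v ^ 2) / (x ^ 2 + (s ^ 2) ^ 2 * v ^ 2)) ≤ Real.log 4 + ε * m) := by
  have hx2 : 0 < x ^ 2 := by positivity
  have hv2 : 0 ≤ v ^ 2 := by positivity
  have hc : 0 < x ^ 2 + v ^ 2 := by positivity
  have hs4' : 0 < s ^ 4 := by positivity
  have hs1 : s ^ 4 ≤ 1 := pow_le_one₀ hs.le (by linarith)
  have hden : 0 < x ^ 2 + (s ^ 2) ^ 2 * v ^ 2 := by positivity
  constructor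
  · rw [show 4 * Real.log (1 / s) = Real.log ((1 / s) ^ 4) by rw [Real.log_pow]; norm_num]
    refine Real.log_le_log (by positivity) ?_
    rw [div_le_iff₀ hden, div_pow, one_pow, div_mul_eq_mul_div, one_mul, le_div_iff₀ hs4']
    have e : (s ^ 2) ^ 2 = s ^ 4 := by ring
    rw [e]
    nlinarith
  · intro h1 h2 h3
    have hq : a * Real.sqrt (x ^ 2 + v ^ 2) ≤ 2 * x * M := by
      by_contra hcon
      push Not at hcon
      have h4 : a * Real.sqrt (x ^ 2 + v ^ 2) < 2 * ae := by nlinarith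
      have h5 : a * x ≤ a * Real.sqrt (x ^ 2 + v ^ 2) := by
        refine mul_le_mul_of_nonneg_left ?_ ha.le
        rw [show x = Real.sqrt (x ^ 2) from (Real.sqrt_sq hx.le).symm]
        rw [Real.sq_sqrt hx2.le]
        exact Real.sqrt_le_sqrt (by linarith)
      have h6 : a * x < 2 * ae := lt_of_le_of_lt h5 h4
      have h7 : (a * x) ^ 2 < (2 * ae) ^ 2 := pow_lt_pow_left₀ h6 (by positivity) (by norm_num)
      have h8 : a ^ 2 < 4 * (ae ^ 2 / x ^ 2) := by
        rw [← mul_div_assoc, lt_div_iff₀ hx2]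
        nlinarith
      linarith
    have hsq : a ^ 2 * (x ^ 2 + v ^ 2) ≤ 4 * x ^ 2 * M ^ 2 := by
      have h4 : (a * Real.sqrt (x ^ 2 + v ^ 2)) ^ 2 ≤ (2 * x * M) ^ 2 :=
        pow_le_pow_left₀ (by positivity) hq 2
      rw [mul_pow, Real.sq_sqrt hc.le] at h4
      nlinarith
    have ha2 : 0 < a ^ 2 := by positivity
    have hMpos : 0 < M ^ 2 := by
      by_contra hcon
      have h4 : M ^ 2 = 0 := le_antisymm (not_lt.1 hcon) (by positivity)
      rw [h4, mul_zero] at hsq
      have : 0 < a ^ 2 * (x ^ 2 + v ^ 2) := by positivity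
      linarith
    have h4 : (x ^ 2 + v ^ 2) / (x ^ 2 + (s ^ 2) ^ 2 * v ^ 2) ≤ 4 * (M ^ 2 / a ^ 2) := by
      rw [div_le_iff₀ hden]
      have h5 : x ^ 2 + v ^ 2 ≤ 4 * (M ^ 2 / a ^ 2) * x ^ 2 := by
        have e : 4 * (M ^ 2 / a ^ 2) * x ^ 2 = 4 * x ^ 2 * M ^ 2 / a ^ 2 := by ring
        rw [e, le_div_iff₀ ha2]
        linarith
      have h6 : 0 ≤ 4 * (M ^ 2 / a ^ 2) * ((s ^ 2) ^ 2 * v ^ 2) := by positivity
      linarith
    have h5 := Real.log_le_log (by positivity) h4
    rw [Real.log_mul (by norm_num) (by positivity)] at h5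
    linarith

theorem UR3_sl (s : ℝ) (hs : 0 < s) (hs4 : s ≤ 1 / 4) : s ^ 2 * Real.log (1 / s) ≤ 1 := by
  have h1 : Real.log (1 / s) ≤ 1 / s := (Real.log_le_sub_one_of_pos (by positivity)).trans (by linarith)
  calc s ^ 2 * Real.log (1 / s) ≤ s ^ 2 * (1 / s) := mul_le_mul_of_nonneg_left h1 (by positivity)
    _ = s := by field_simp
    _ ≤ 1 := by linarith

theorem UR3 : UR3_stmt := by
  intro C0 hC0
  refine ⟨35 * C0, by positivity, ?_⟩
  intro Ω _ ν zx zv a M ae s ε d m hzx hzv ha hM hae hpos hle hs hs4 hε hd hdm1 hdm2 hν hE hint hA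
  have hs1 : s < 1 := by linarith
  have hlog : 0 < Real.log (1 / s) := Real.log_pos (by rw [lt_div_iff₀ hs]; linarith)
  have hdm : 0 < d ^ m := by positivity
  set A1 : Set Ω := {q | a q ^ 2 ≤ s * d ^ m} with hA1
  set A2 : Set Ω := {q | ENNReal.ofReal (s * d ^ m / 4) ≤ ENNReal.ofReal (ae q ^ 2 / ‖zx q‖ ^ 2)} with hA2
  set E : Set Ω := {q | ε * m ≤ Real.log (M q ^ 2 / a q ^ 2)} with hEdef
  have hmf : Measurable fun q => ENNReal.ofReal (ae q ^ 2 / ‖zx q‖ ^ 2) :=
    ((hae.pow_const 2).div (hzx.norm.pow_const 2)).ennreal_ofReal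
  have mA1 : MeasurableSet A1 := measurableSet_le (ha.pow_const 2) measurable_const
  have mA2 : MeasurableSet A2 := measurableSet_le measurable_const hmf
  have mE : MeasurableSet E :=
    measurableSet_le measurable_const (Real.measurable_log.comp ((hM.pow_const 2).div (ha.pow_const 2)))
  -- Markov
  have hνA2 : ν A2 ≤ ENNReal.ofReal (4 * C0 * s ^ 2) := by
    have h1 := mul_meas_ge_le_lintegral (μ := ν) hmf (ENNReal.ofReal (s * d ^ m / 4))
    have h2 : ENNReal.ofReal (s * d ^ m / 4) * ν A2 ≤ ENNReal.ofReal (C0 / s ^ 2) := h1.trans hint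
    have hc : 0 < s * d ^ m / 4 := by positivity
    have h3 : ν A2 ≤ ENNReal.ofReal (C0 / s ^ 2) / ENNReal.ofReal (s * d ^ m / 4) := by
      rw [ENNReal.le_div_iff_mul_le (Or.inl (by rw [Ne, ENNReal.ofReal_eq_zero]; push Not; exact hc))
        (Or.inl ENNReal.ofReal_ne_top), mul_comm]
      exact h2
    refine h3.trans ?_
    rw [← ENNReal.ofReal_div_of_pos hc]
    refine ENNReal.ofReal_le_ofReal ?_
    rw [div_div, div_le_iff₀ (by positivity)]
    have h4 : 1 ≤ s ^ 5 * d ^ m := by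
      rw [inv_pow] at hdm1
      calc (1 : ℝ) = s ^ 5 * (s ^ 5)⁻¹ := by field_simp
        _ ≤ s ^ 5 * d ^ m := mul_le_mul_of_nonneg_left hdm1 (by positivity)
    calc C0 = C0 * 1 := (mul_one _).symm
      _ ≤ C0 * (s ^ 5 * d ^ m) := mul_le_mul_of_nonneg_left h4 (by linarith)
      _ = 4 * C0 * s ^ 2 * (s ^ 2 * (s * d ^ m / 4)) := by ring
  -- the pointwise bound
  have hpt : ∀ q, ENNReal.ofReal (Real.log ((‖zx q‖ ^ 2 + ‖zv q‖ ^ 2) /
      (‖zx q‖ ^ 2 + (s ^ 2) ^ 2 * ‖zv q‖ ^ 2))) ≤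
      (A1.indicator (fun _ => ENNReal.ofReal (4 * Real.log (1 / s))) q +
      A2.indicator (fun _ => ENNReal.ofReal (4 * Real.log (1 / s))) q) +
      (E.indicator (fun _ => ENNReal.ofReal (4 * Real.log (1 / s))) q +
      ENNReal.ofReal (Real.log 4 + ε * m)) := by
    intro q
    obtain ⟨h0, h1, -, -⟩ := hpos q
    obtain ⟨p1, p2⟩ := UR3_pt ‖zx q‖ ‖zv q‖ (a q) (M q) (ae q) s ε d m (norm_pos_iff.2 h0)
      h1 hs hs4 (hle q)
    have p1' := ENNReal.ofReal_le_ofReal p1
    by_cases c1 : q ∈ A1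
    · rw [indicator_of_mem c1]
      exact p1'.trans (le_self_add.trans le_self_add)
    · by_cases c2 : q ∈ A2
      · rw [indicator_of_mem c2]
        exact p1'.trans (le_add_self.trans le_self_add)
      · by_cases c3 : q ∈ E
        · rw [indicator_of_mem c3]
          exact p1'.trans (le_self_add.trans le_add_self)
        · refine (ENNReal.ofReal_le_ofReal (p2 (not_le.1 c1) ?_ (not_le.1 c3))).trans
            (le_add_self.trans le_add_self)
          exact (ENNReal.ofReal_lt_ofReal_iff_of_nonneg (by positivity)).1 (not_le.1 c2)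
  have mf1 : Measurable (fun q => A1.indicator (fun _ => ENNReal.ofReal (4 * Real.log (1 / s))) q +
      A2.indicator (fun _ => ENNReal.ofReal (4 * Real.log (1 / s))) q) :=
    (measurable_const.indicator mA1).add (measurable_const.indicator mA2)
  have hmε : ε * m ≤ 9 * (ε * Real.log (1 / s)) := by
    have h1 : (m : ℝ) * Real.log 2 ≤ 6 * Real.log (1 / s) := by
      have h2 := Real.log_le_log hdm hdm2
      rw [Real.log_pow, Real.log_pow, ← one_div] at h2
      push_cast at h2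
      have h3 : Real.log 2 ≤ Real.log d := Real.log_le_log (by norm_num) hd
      have h4 : (m : ℝ) * Real.log 2 ≤ m * Real.log d := mul_le_mul_of_nonneg_left h3 (by positivity)
      linarith
    have h2 := Real.log_two_gt_d9
    have h3 : (m : ℝ) ≤ 9 * Real.log (1 / s) := by
      have hm0 : (0 : ℝ) ≤ m := by positivity
      nlinarith
    nlinarith
  have hlog4 : Real.log 4 ≤ 2 := by
    rw [show (4 : ℝ) = 2 ^ 2 by norm_num, Real.log_pow]
    have := Real.log_two_lt_d9
    push_cast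
    linarith
  have hlog40 : 0 ≤ Real.log 4 := Real.log_nonneg (by norm_num)
  calc ∫⁻ q, ENNReal.ofReal (Real.log ((‖zx q‖ ^ 2 + ‖zv q‖ ^ 2) /
        (‖zx q‖ ^ 2 + (s ^ 2) ^ 2 * ‖zv q‖ ^ 2))) ∂ν
      ≤ ∫⁻ q, ((A1.indicator (fun _ => ENNReal.ofReal (4 * Real.log (1 / s))) q +
      A2.indicator (fun _ => ENNReal.ofReal (4 * Real.log (1 / s))) q) +
      (E.indicator (fun _ => ENNReal.ofReal (4 * Real.log (1 / s))) q +
      ENNReal.ofReal (Real.log 4 + ε * m))) ∂ν := lintegral_mono hpt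
    _ = (ENNReal.ofReal (4 * Real.log (1 / s)) * ν A1 + ENNReal.ofReal (4 * Real.log (1 / s)) * ν A2) +
        (ENNReal.ofReal (4 * Real.log (1 / s)) * ν E + ENNReal.ofReal (Real.log 4 + ε * m) * ν univ) := by
        rw [lintegral_add_left mf1,
          lintegral_add_left (measurable_const.indicator mA1),
          lintegral_add_left (measurable_const.indicator mE),
          lintegral_indicator_const mA1, lintegral_indicator_const mA2, lintegral_indicator_const mE,
          lintegral_const]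
    _ ≤ (ENNReal.ofReal (4 * Real.log (1 / s)) * ENNReal.ofReal (C0 / Real.log (1 / s)) +
        ENNReal.ofReal (4 * Real.log (1 / s)) * ENNReal.ofReal (4 * C0 * s ^ 2)) +
        (ENNReal.ofReal (4 * Real.log (1 / s)) * ENNReal.ofReal ε +
        ENNReal.ofReal (Real.log 4 + ε * m) * ENNReal.ofReal C0) := by
        gcongr
    _ = ENNReal.ofReal ((4 * Real.log (1 / s) * (C0 / Real.log (1 / s)) +
        4 * Real.log (1 / s) * (4 * C0 * s ^ 2)) +
        (4 * Real.log (1 / s) * ε + (Real.log 4 + ε * m) * C0)) := by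
        rw [← ENNReal.ofReal_mul (by positivity), ← ENNReal.ofReal_mul (by positivity),
          ← ENNReal.ofReal_mul (by positivity), ← ENNReal.ofReal_mul (by positivity),
          ← ENNReal.ofReal_add (by positivity) (by positivity),
          ← ENNReal.ofReal_add (by positivity) (by positivity),
          ← ENNReal.ofReal_add (by positivity) (by positivity)]
    _ ≤ ENNReal.ofReal (35 * C0 * (ε * Real.log (1 / s) + 1)) := by
        refine ENNReal.ofReal_le_ofReal ?_
        have e1 : 4 * Real.log (1 / s) * (C0 / Real.log (1 / s)) = 4 * C0 := by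
          field_simp
        have e2 : 4 * Real.log (1 / s) * (4 * C0 * s ^ 2) ≤ 16 * C0 := by
          have := UR3_sl s hs hs4
          nlinarith
        have e3 : (Real.log 4 + ε * m) * C0 ≤ (2 + 9 * (ε * Real.log (1 / s))) * C0 :=
          mul_le_mul_of_nonneg_right (by linarith) (by linarith)
        have e4 : 0 ≤ ε * Real.log (1 / s) := by positivity
        rw [e1]
        nlinarith

end Pool.Agent.P2U
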