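import Pool.Agent.helper56.P2.SpecU

/-!
Row p2:UTSB (MP_063734_an): the logarithmic cut-off.
-/

set_option autoImplicit false

namespace Pool.Agent.P2U

open MeasureTheory Set Filter Topology Metric Complex
open scoped ENNReal ContDiff

theorem UTSB_glue {f g f' g' : ℝ → ℝ} (hf : ∀ r ≤ 1, HasDerivAt f (f' r) r)
    (hg : ∀ r, 1 ≤ r → HasDerivAt g (g' r) r) (h0 : f 1 = g 1) (h1 : f' 1 = g' 1) (r : ℝ) :
    HasDerivAt (fun r => if r < 1 then f r else g r) (if r < 1 then f' r else g' r) r := by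
  rcases lt_trichotomy r 1 with h | h | h
  · rw [if_pos h]
    refine (hf r h.le).congr_of_eventuallyEq ?_
    filter_upwards [gt_mem_nhds h] with x hx
    exact if_pos hx
  · subst h
    rw [if_neg (lt_irrefl _)]
    have e1 : HasDerivWithinAt (fun r => if r < 1 then f r else g r) (g' 1) (Iic 1) 1 := by
      have := (hf 1 le_rfl).hasDerivWithinAt (s := Iic 1)
      rw [h1] at this
      refine this.congr (fun x hx => ?_) ?_
      · rcases lt_or_eq_of_le (mem_Iic.1 hx) with h | h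
        · exact if_pos h
        · rw [h, if_neg (lt_irrefl _), h0]
      · rw [if_neg (lt_irrefl _), h0]
    have e2 : HasDerivWithinAt (fun r => if r < 1 then f r else g r) (g' 1) (Ici 1) 1 := by
      refine ((hg 1 le_rfl).hasDerivWithinAt (s := Ici 1)).congr (fun x hx => ?_) ?_
      · exact if_neg (not_lt.2 (mem_Ici.1 hx))
      · exact if_neg (lt_irrefl _)
    have e3 := e1.union e2
    rwa [Iic_union_Ici, hasDerivWithinAt_univ] at e3
  · rw [if_neg (not_lt.2 h.le)]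
    refine (hg r h.le).congr_of_eventuallyEq ?_
    filter_upwards [lt_mem_nhds h] with x hx
    exact if_neg (not_lt.2 hx.le)

/-- the derivative of `kk` -/
noncomputable def UTSB_k1 (r : ℝ) : ℝ := if r < 1 then (2 - r) / 2 else 1 / (2 * r)

/-- the second derivative of `kk` -/
noncomputable def UTSB_k2 (r : ℝ) : ℝ := if r < 1 then -(1 / 2) else -(1 / (2 * r ^ 2))

theorem UTSB_d1 (r : ℝ) : HasDerivAt kk (UTSB_k1 r) r := by
  have h := UTSB_glue (f := fun r => ((r - 1) - (r - 1) ^ 2 / 2) / 2) (g := fun r => Real.log r / 2)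
    (f' := fun r => (2 - r) / 2) (g' := fun r => 1 / (2 * r)) (fun r _ => by
      have h1 : HasDerivAt (fun r : ℝ => r - 1) 1 r := (hasDerivAt_id r).sub_const 1
      have h2 := (h1.sub ((h1.pow 2).div_const 2)).div_const 2
      refine h2.congr_deriv ?_
      norm_num
      ring) (fun r hr => by
      have h1 := (Real.hasDerivAt_log (show r ≠ 0 by linarith)).div_const 2
      refine h1.congr_deriv ?_
      field_simp) (by norm_num) (by norm_num) r
  exact h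

theorem UTSB_d2 (r : ℝ) : HasDerivAt UTSB_k1 (UTSB_k2 r) r := by
  have h := UTSB_glue (f := fun r => (2 - r) / 2) (g := fun r => 1 / (2 * r))
    (f' := fun _ => -(1 / 2)) (g' := fun r => -(1 / (2 * r ^ 2))) (fun r _ => by
      have h1 := ((hasDerivAt_id r).const_sub 2).div_const 2
      refine h1.congr_deriv ?_
      norm_num) (fun r hr => by
      have hr0 : r ≠ 0 := by linarith
      have h1 : HasDerivAt (fun r : ℝ => 2 * r) (2 * 1) r := (hasDerivAt_id r).const_mul 2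
      have h2 := h1.inv (by simpa using hr0)
      have h3 : (fun r : ℝ => 1 / (2 * r)) = (fun r : ℝ => 2 * r)⁻¹ := by
        funext x
        simp
      rw [h3]
      refine h2.congr_deriv ?_
      field_simp) (by norm_num) (by norm_num) r
  exact h

theorem UTSB_c2 : Continuous UTSB_k2 := by
  have h : Continuous (fun r : ℝ => -(1 / (2 * (max r 1) ^ 2))) := by
    refine Continuous.neg (Continuous.div continuous_const (by fun_prop) fun r => ?_)
    have : (1 : ℝ) ≤ max r 1 := le_max_right _ _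
    positivity
  refine h.congr fun r => ?_
  unfold UTSB_k2
  split_ifs with h1
  · rw [max_eq_right h1.le]
    norm_num
  · rw [max_eq_left (not_lt.1 h1)]

theorem UTSB_cd1 : ContDiff ℝ 1 UTSB_k1 := by
  rw [contDiff_one_iff_deriv]
  refine ⟨fun r => (UTSB_d2 r).differentiableAt, ?_⟩
  rw [show deriv UTSB_k1 = UTSB_k2 from funext fun r => (UTSB_d2 r).deriv]
  exact UTSB_c2

theorem UTSB_cd2 : ContDiff ℝ 2 kk := by
  have h : ContDiff ℝ (1 + 1) kk := by
    rw [contDiff_succ_iff_deriv]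
    refine ⟨fun r => (UTSB_d1 r).differentiableAt, by simp, ?_⟩
    rw [show deriv kk = UTSB_k1 from funext fun r => (UTSB_d1 r).deriv]
    exact UTSB_cd1
  exact h

theorem UTSB_k1_pos (r : ℝ) : 0 < UTSB_k1 r := by
  unfold UTSB_k1
  split_ifs with h
  · linarith
  · have : 0 < r := by linarith
    positivity

theorem UTSB_mono : Monotone kk :=
  monotone_of_deriv_nonneg (fun r => (UTSB_d1 r).differentiableAt) fun r => by
    rw [(UTSB_d1 r).deriv]
    exact (UTSB_k1_pos r).le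

theorem UTSB_anti : AntitoneOn (fun r => kk r - Real.log r / 2) (Ioi 0) := by
  have hd : ∀ r : ℝ, 0 < r → HasDerivAt (fun r => kk r - Real.log r / 2)
      (UTSB_k1 r - r⁻¹ / 2) r := fun r hr =>
    (UTSB_d1 r).sub ((Real.hasDerivAt_log hr.ne').div_const 2)
  refine antitoneOn_of_deriv_nonpos (convex_Ioi 0)
    (fun r hr => (hd r hr).continuousAt.continuousWithinAt) ?_ ?_
  · rw [interior_Ioi]
    exact fun r hr => (hd r hr).differentiableAt.differentiableWithinAt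
  · rw [interior_Ioi]
    intro r hr
    have hr0 : 0 < r := hr
    rw [(hd r hr).deriv]
    unfold UTSB_k1
    split_ifs with h
    · rw [sub_nonpos, div_le_div_iff_of_pos_right (by norm_num : (0:ℝ) < 2), le_inv_comm₀ (by linarith) hr0,
        inv_eq_one_div, le_div_iff₀ (by linarith)]
      nlinarith [sq_nonneg (r - 1)]
    · rw [one_div, mul_inv]
      apply le_of_eq
      ring

/-- `m(r) = r kk'(r)` is at most `1/2`, at most `r`, nonnegative for `r ≥ 0` -/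
theorem UTSB_m (r : ℝ) (hr : 0 ≤ r) : 0 ≤ r * UTSB_k1 r ∧ r * UTSB_k1 r ≤ 1 / 2 ∧
    r * UTSB_k1 r ≤ r := by
  refine ⟨mul_nonneg hr (UTSB_k1_pos r).le, ?_, ?_⟩
  · unfold UTSB_k1
    split_ifs with h
    · nlinarith [sq_nonneg (r - 1)]
    · have : 0 < r := by linarith
      apply le_of_eq
      field_simp
  · unfold UTSB_k1
    split_ifs with h
    · nlinarith
    · have : 0 < r := by linarith
      have e : r * (1 / (2 * r)) = 1 / 2 := by field_simp
      rw [e]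
      linarith

theorem UTSB_mm {r r' : ℝ} (hr : 0 ≤ r) (h : r ≤ r') : r * UTSB_k1 r ≤ r' * UTSB_k1 r' := by
  by_cases h1 : r' < 1
  · have h2 : r < 1 := lt_of_le_of_lt h h1
    unfold UTSB_k1
    rw [if_pos h1, if_pos h2]
    nlinarith
  · have e : r' * UTSB_k1 r' = 1 / 2 := by
      unfold UTSB_k1
      rw [if_neg h1]
      have : 0 < r' := by linarith
      field_simp
    rw [e]
    exact (UTSB_m r hr).2.1

theorem UTSB_m' (r : ℝ) : UTSB_k1 r + r * UTSB_k2 r = max 0 (1 - r) := by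
  unfold UTSB_k1 UTSB_k2
  split_ifs with h
  · rw [max_eq_right (by linarith)]
    ring
  · have : 0 < r := by linarith
    rw [max_eq_left (by linarith)]
    field_simp
    ring

/-- radial functions -/
theorem UTSB_rad {H H1 : ℝ → ℝ} (hH : ∀ y, HasDerivAt H (H1 y) y) (v : ℂ) :
    HasFDerivAt (fun v : ℂ => H (‖v‖ ^ 2)) ((2 * H1 (‖v‖ ^ 2)) • innerSL ℝ v) v := by
  have h1 : HasFDerivAt (fun v : ℂ => ‖v‖ ^ 2) (2 • innerSL ℝ v) v :=
    (hasStrictFDerivAt_norm_sq v).hasFDerivAt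
  have h2 := (hH (‖v‖ ^ 2)).comp_hasFDerivAt v h1
  refine h2.congr_fderiv ?_
  ext ξ
  simp
  ring

theorem UTSB_lz {H H1 H2 : ℝ → ℝ} (hH : ∀ y, HasDerivAt H (H1 y) y)
    (hH1 : ∀ y, HasDerivAt H1 (H2 y) y) (v : ℂ) :
    Lz (fun v : ℂ => H (‖v‖ ^ 2)) v = H1 (‖v‖ ^ 2) + ‖v‖ ^ 2 * H2 (‖v‖ ^ 2) := by
  have e1 : fderiv ℝ (fun v : ℂ => H (‖v‖ ^ 2)) = fun v => (2 * H1 (‖v‖ ^ 2)) • innerSL ℝ v :=
    funext fun v => (UTSB_rad hH v).fderiv
  have h1 : HasFDerivAt (fun v : ℂ => 2 * H1 (‖v‖ ^ 2))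
      ((2 : ℝ) • ((2 * H2 (‖v‖ ^ 2)) • innerSL ℝ v)) v := (UTSB_rad hH1 v).const_mul 2
  have h2 : HasFDerivAt (fun v : ℂ => innerSL ℝ v) (innerSL ℝ : ℂ →L[ℝ] ℂ →L[ℝ] ℝ) v :=
    (innerSL ℝ : ℂ →L[ℝ] ℂ →L[ℝ] ℝ).hasFDerivAt
  have h3 : HasFDerivAt (fun v : ℂ => (2 * H1 (‖v‖ ^ 2)) • innerSL ℝ v) _ v := h1.smul h2
  have h4 : ‖v‖ ^ 2 = v.re * v.re + v.im * v.im := by
    rw [← Complex.normSq_eq_norm_sq, Complex.normSq_apply]
  have i1 : ((innerSL ℝ : ℂ →L[ℝ] ℂ →L[ℝ] ℝ) 1) 1 = 1 := by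
    rw [innerSL_apply_apply, Complex.inner]
    simp
  have i2 : ((innerSL ℝ : ℂ →L[ℝ] ℂ →L[ℝ] ℝ) I) I = 1 := by
    rw [innerSL_apply_apply, Complex.inner]
    simp
  have i3 : ((innerSL ℝ : ℂ →L[ℝ] ℂ →L[ℝ] ℝ) v) 1 = v.re := by
    rw [innerSL_apply_apply, Complex.inner]
    simp
  have i4 : ((innerSL ℝ : ℂ →L[ℝ] ℂ →L[ℝ] ℝ) v) I = v.im := by
    rw [innerSL_apply_apply, Complex.inner]
    simp
  unfold Lz
  rw [e1, h3.fderiv]
  simp only [add_apply, smul_apply, ContinuousLinearMap.smulRight_apply, smul_eq_mul]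
  rw [i1, i2, i3, i4, h4]
  ring

theorem UTSB : UTSB_stmt := by
  intro s t hs hst ht ht4
  have hs2 : 0 < s ^ 2 := by positivity
  have ht2 : 0 < t ^ 2 := by positivity
  have hst' : s ≤ t := by nlinarith
  have hst2 : s ^ 2 ≤ t ^ 2 := pow_le_pow_left₀ hs.le hst' 2
  have h4ts : 4 ≤ t / s := by
    rw [le_div_iff₀ hs]
    nlinarith
  have hlog4 : 5 / 4 ≤ Real.log 4 := by
    rw [show (4 : ℝ) = 2 ^ 2 by norm_num, Real.log_pow]
    have := Real.log_two_gt_d9
    push_cast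
    linarith
  have hL54 : 5 / 4 ≤ Real.log (t / s) :=
    hlog4.trans (Real.log_le_log (by norm_num) h4ts)
  set L := Real.log (t / s) with hL
  have hLpos : 0 < L := by linarith
  have hLe : L = Real.log t - Real.log s := Real.log_div ht.ne' hs.ne'
  -- the radial profile
  have hd0 : ∀ y, HasDerivAt (fun y : ℝ => 1 + (kk (y / t ^ 2) - kk (y / s ^ 2)) / L)
      ((UTSB_k1 (y / t ^ 2) / t ^ 2 - UTSB_k1 (y / s ^ 2) / s ^ 2) / L) y := by
    intro y
    have a1 : HasDerivAt (fun y : ℝ => y / t ^ 2) (1 / t ^ 2) y := (hasDerivAt_id y).div_const _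
    have a2 : HasDerivAt (fun y : ℝ => y / s ^ 2) (1 / s ^ 2) y := (hasDerivAt_id y).div_const _
    have b1 := (UTSB_d1 (y / t ^ 2)).comp y a1
    have b2 := (UTSB_d1 (y / s ^ 2)).comp y a2
    refine (((b1.sub b2).div_const L).const_add 1).congr_deriv ?_
    ring
  have hd1 : ∀ y, HasDerivAt (fun y : ℝ =>
      (UTSB_k1 (y / t ^ 2) / t ^ 2 - UTSB_k1 (y / s ^ 2) / s ^ 2) / L)
      ((UTSB_k2 (y / t ^ 2) / t ^ 2 / t ^ 2 - UTSB_k2 (y / s ^ 2) / s ^ 2 / s ^ 2) / L) y := by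
    intro y
    have a1 : HasDerivAt (fun y : ℝ => y / t ^ 2) (1 / t ^ 2) y := (hasDerivAt_id y).div_const _
    have a2 : HasDerivAt (fun y : ℝ => y / s ^ 2) (1 / s ^ 2) y := (hasDerivAt_id y).div_const _
    have b1 := ((UTSB_d2 (y / t ^ 2)).comp y a1).div_const (t ^ 2)
    have b2 := ((UTSB_d2 (y / s ^ 2)).comp y a2).div_const (s ^ 2)
    refine ((b1.sub b2).div_const L).congr_deriv ?_
    ring
  have hfd : ∀ v, fderiv ℝ (HH s t) v = (2 * ((UTSB_k1 (‖v‖ ^ 2 / t ^ 2) / t ^ 2 -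
      UTSB_k1 (‖v‖ ^ 2 / s ^ 2) / s ^ 2) / L)) • innerSL ℝ v :=
    fun v => (UTSB_rad hd0 v).fderiv
  have hle : ∀ v : ℂ, ‖v‖ ^ 2 / t ^ 2 ≤ ‖v‖ ^ 2 / s ^ 2 := fun v =>
    div_le_div_of_nonneg_left (by positivity) hs2 hst2
  have hbig : ∀ (v : ℂ) (a : ℝ), 0 < a → a ≤ ‖v‖ → 1 ≤ ‖v‖ ^ 2 / a ^ 2 := by
    intro v a ha hav
    rw [le_div_iff₀ (by positivity), one_mul]
    exact pow_le_pow_left₀ ha.le hav 2
  have hkb : ∀ r : ℝ, 1 ≤ r → kk r = Real.log r / 2 := fun r hr => if_neg (not_lt.2 hr)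
  have hk1b : ∀ r : ℝ, 1 ≤ r → UTSB_k1 r = 1 / (2 * r) := fun r hr => if_neg (not_lt.2 hr)
  -- the bound for the derivative of the profile, multiplied by `y`
  have hH1 : ∀ v : ℂ, ‖v‖ ^ 2 * |(UTSB_k1 (‖v‖ ^ 2 / t ^ 2) / t ^ 2 -
      UTSB_k1 (‖v‖ ^ 2 / s ^ 2) / s ^ 2) / L| ≤ min (1 / 2) (‖v‖ ^ 2 / s ^ 2) / L := by
    intro v
    set y := ‖v‖ ^ 2 with hy
    have hy0 : 0 ≤ y := by positivity
    have e1 : y * |(UTSB_k1 (y / t ^ 2) / t ^ 2 - UTSB_k1 (y / s ^ 2) / s ^ 2) / L| =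
        |(y / t ^ 2) * UTSB_k1 (y / t ^ 2) - (y / s ^ 2) * UTSB_k1 (y / s ^ 2)| / L := by
      rw [abs_div, abs_of_pos hLpos, ← mul_div_assoc]
      congr 1
      rw [← abs_of_nonneg hy0, ← abs_mul, abs_of_nonneg hy0]
      congr 1
      ring
    rw [e1]
    refine div_le_div_of_nonneg_right ?_ hLpos.le
    have m1 := UTSB_m (y / t ^ 2) (by positivity)
    have m2 := UTSB_m (y / s ^ 2) (by positivity)
    have m3 := UTSB_mm (r := y / t ^ 2) (r' := y / s ^ 2) (by positivity) (hle v)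
    rw [abs_sub_comm, abs_of_nonneg (by linarith)]
    exact le_min (by linarith [m1.1, m2.2.1]) (by linarith [m1.1, m2.2.2])
  refine ⟨?_, ?_, ?_, ?_, ?_, ?_⟩
  · have h1 : ContDiff ℝ 2 (fun v : ℂ => kk (‖v‖ ^ 2 / t ^ 2)) :=
      UTSB_cd2.comp ((contDiff_norm_sq ℝ).div_const _)
    have h2 : ContDiff ℝ 2 (fun v : ℂ => kk (‖v‖ ^ 2 / s ^ 2)) :=
      UTSB_cd2.comp ((contDiff_norm_sq ℝ).div_const _)
    exact contDiff_const.add ((h1.sub h2).div_const _)
  · intro v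
    unfold HH
    rw [← hL]
    have h1 := UTSB_mono (hle v)
    constructor
    · rcases eq_or_ne v 0 with h0 | h0
      · rw [h0]
        simp
      · have hv : 0 < ‖v‖ ^ 2 := by positivity
        have h2 := UTSB_anti (a := ‖v‖ ^ 2 / t ^ 2) (b := ‖v‖ ^ 2 / s ^ 2)
          (by rw [mem_Ioi]; positivity) (by rw [mem_Ioi]; positivity) (hle v)
        simp only at h2
        rw [Real.log_div hv.ne' hs2.ne', Real.log_div hv.ne' ht2.ne'] at h2
        simp only [Real.log_pow] at h2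
        push_cast at h2
        have h3 : -L ≤ kk (‖v‖ ^ 2 / t ^ 2) - kk (‖v‖ ^ 2 / s ^ 2) := by
          rw [hLe]
          linarith
        have h4 : -1 ≤ (kk (‖v‖ ^ 2 / t ^ 2) - kk (‖v‖ ^ 2 / s ^ 2)) / L := by
          rw [le_div_iff₀ hLpos]
          linarith
        linarith
    · have h2 : (kk (‖v‖ ^ 2 / t ^ 2) - kk (‖v‖ ^ 2 / s ^ 2)) / L ≤ 0 :=
        div_nonpos_of_nonpos_of_nonneg (by linarith) hLpos.le
      linarith
  · intro v hv
    have hv0 : 0 < ‖v‖ := lt_of_lt_of_le ht hv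
    have hvp : 0 < ‖v‖ ^ 2 := by positivity
    have b1 := hbig v t ht hv
    have b2 := hbig v s hs (hst'.trans hv)
    constructor
    · unfold HH
      rw [← hL, hkb _ b1, hkb _ b2, Real.log_div hvp.ne' hs2.ne', Real.log_div hvp.ne' ht2.ne']
      simp only [Real.log_pow]
      push_cast
      have h3 : (2 * Real.log ‖v‖ - 2 * Real.log t) / 2 -
          (2 * Real.log ‖v‖ - 2 * Real.log s) / 2 = -L := by
        rw [hLe]
        ring
      rw [h3, neg_div, div_self hLpos.ne']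
      ring
    · rw [hfd v, hk1b _ b1, hk1b _ b2]
      have h3 : (1 / (2 * (‖v‖ ^ 2 / t ^ 2)) / t ^ 2 - 1 / (2 * (‖v‖ ^ 2 / s ^ 2)) / s ^ 2) = 0 := by
        field_simp
        ring
      rw [h3, zero_div, mul_zero, zero_smul]
  · intro v hv
    unfold HH
    rw [← hL]
    have h1 : kk (‖v‖ ^ 2 / s ^ 2) ≤ 0 := by
      have h2 : ‖v‖ ^ 2 / s ^ 2 ≤ 1 := by
        rw [div_le_one hs2]
        exact pow_le_pow_left₀ (norm_nonneg v) hv 2
      have h3 := UTSB_mono h2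
      rwa [hkb 1 le_rfl, Real.log_one, zero_div] at h3
    have h2 : -(3 / 4) ≤ kk (‖v‖ ^ 2 / t ^ 2) := by
      have h3 := UTSB_mono (show (0 : ℝ) ≤ ‖v‖ ^ 2 / t ^ 2 by positivity)
      refine le_trans (le_of_eq ?_) h3
      unfold kk
      rw [if_pos one_pos]
      norm_num
    have h3 : -(3 / 5) ≤ (kk (‖v‖ ^ 2 / t ^ 2) - kk (‖v‖ ^ 2 / s ^ 2)) / L := by
      rw [le_div_iff₀ hLpos]
      linarith
    linarith
  · intro v ξ
    rw [hfd v]
    simp only [smul_apply, innerSL_apply_apply, smul_eq_mul]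
    rw [abs_mul, abs_mul, abs_of_pos (by norm_num : (0 : ℝ) < 2)]
    have h1 : |inner ℝ v ξ| ≤ ‖v‖ * ‖ξ‖ := abs_real_inner_le_norm v ξ
    have h2 := hH1 v
    set c := |(UTSB_k1 (‖v‖ ^ 2 / t ^ 2) / t ^ 2 - UTSB_k1 (‖v‖ ^ 2 / s ^ 2) / s ^ 2) / L| with hc
    have hc0 : 0 ≤ c := abs_nonneg _
    have hM : 0 < max ‖v‖ s := lt_max_of_lt_right hs
    have h3 : c * ‖v‖ ≤ 1 / (L * max ‖v‖ s) := by
      rcases eq_or_ne v 0 with h0 | h0
      · rw [h0, norm_zero, mul_zero]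
        positivity
      · have hv : 0 < ‖v‖ := norm_pos_iff.2 h0
        rw [le_div_iff₀ (by positivity)]
        rw [le_div_iff₀ hLpos] at h2
        have h4 : ‖v‖ ^ 2 * c * L ≤ 1 / 2 := h2.trans (min_le_left _ _)
        have h5 : ‖v‖ ^ 2 * c * L ≤ ‖v‖ ^ 2 / s ^ 2 := h2.trans (min_le_right _ _)
        rcases le_total s ‖v‖ with h6 | h6
        · rw [max_eq_left h6]
          nlinarith
        · rw [max_eq_right h6]
          have h7 : c * L ≤ 1 / s ^ 2 := by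
            rw [div_eq_mul_one_div (‖v‖ ^ 2) (s ^ 2)] at h5
            have hv2 : 0 < ‖v‖ ^ 2 := by positivity
            exact le_of_mul_le_mul_left (by linarith) hv2
          calc c * ‖v‖ * (L * s) = (c * L) * (‖v‖ * s) := by ring
            _ ≤ (1 / s ^ 2) * (s * s) :=
                mul_le_mul h7 (mul_le_mul_of_nonneg_right h6 hs.le) (by positivity) (by positivity)
            _ = 1 := by field_simp
    calc 2 * c * |inner ℝ v ξ| ≤ 2 * c * (‖v‖ * ‖ξ‖) :=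
          mul_le_mul_of_nonneg_left h1 (by positivity)
      _ = 2 * ‖ξ‖ * (c * ‖v‖) := by ring
      _ ≤ 2 * ‖ξ‖ * (1 / (L * max ‖v‖ s)) := mul_le_mul_of_nonneg_left h3 (by positivity)
      _ = 2 * ‖ξ‖ / (L * max ‖v‖ s) := by ring
  · intro v
    have h1 : Lz (HH s t) v = _ := UTSB_lz hd0 hd1 v
    rw [h1]
    have e1 := UTSB_m' (‖v‖ ^ 2 / t ^ 2)
    have e2 := UTSB_m' (‖v‖ ^ 2 / s ^ 2)
    rw [← e1, ← e2]
    ring

end Pool.Agent.P2U
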