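import Pool.Agent.helper56.P2.SpecW

/-!
# P2, row WLF: change of the level in the truncated logarithms
-/

set_option autoImplicit false

open scoped ContDiff Topology ComplexConjugate ENNReal
open MeasureTheory Filter Set Metric MvPolynomial Pool.Agent.helper37.QA

namespace Pool.Agent.P2W

open Pool.Agent.P2

/-! ### tools -/

theorem WLF_nq_append {m n : ℕ} (a : Fin m → ℂ) (b : Fin n → ℂ) : nq (Fin.append a b) = nq a + nq b := by
  unfold nq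
  rw [Fin.sum_univ_add]
  simp only [Fin.append_left, Fin.append_right]

/-- the products of the components -/
noncomputable def WLF_sq (e : ℝ) (G : E3) : Fin (3 * 3) → ℂ :=
  fun k => (e : ℂ) * (G (finProdFinEquiv.symm k).1 * G (finProdFinEquiv.symm k).2)

theorem WLF_nq_sq (e : ℝ) (G : E3) : nq (WLF_sq e G) = e ^ 2 * nq G ^ 2 := by
  unfold WLF_sq nq
  have h1 : ∑ k : Fin (3 * 3), Complex.normSq ((e : ℂ) * (G (finProdFinEquiv.symm k).1 * G (finProdFinEquiv.symm k).2)) =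
      ∑ p : Fin 3 × Fin 3, Complex.normSq ((e : ℂ) * (G p.1 * G p.2)) :=
    (finProdFinEquiv.symm).sum_comp (fun p : Fin 3 × Fin 3 => Complex.normSq ((e : ℂ) * (G p.1 * G p.2)))
  rw [h1, Fintype.sum_prod_type, sq (∑ i, Complex.normSq (G i)), Finset.sum_mul_sum, Finset.mul_sum]
  refine Finset.sum_congr rfl fun i _ => ?_
  rw [Finset.mul_sum]
  refine Finset.sum_congr rfl fun j _ => ?_
  rw [map_mul, map_mul, Complex.normSq_ofReal]
  ring

theorem WLF_nq_nonneg {n : ℕ} (v : Fin n → ℂ) : 0 ≤ nq v := Finset.sum_nonneg fun _ _ => Complex.normSq_nonneg _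

theorem WLF_nq3 (v : E3) : nq v = Complex.normSq (v 0) + Complex.normSq (v 1) + Complex.normSq (v 2) := by
  unfold nq
  rw [Fin.sum_univ_three]

theorem WLF_le_nq (v : E3) (i : Fin 3) : ‖v i‖ ^ 2 ≤ nq v := by
  rw [← Complex.normSq_eq_norm_sq]
  exact Finset.single_le_sum (f := fun i => Complex.normSq (v i)) (fun j _ => Complex.normSq_nonneg (v j)) (Finset.mem_univ i)

theorem WLF_crs (a b : E3) (A B : ℝ) (hA : ∀ i, ‖a i‖ ≤ A) (hB : ∀ i, ‖b i‖ ≤ B) : nq (crs a b) ≤ 12 * (A * B) ^ 2 := by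
  have hA0 : 0 ≤ A := (norm_nonneg _).trans (hA 0)
  have hB0 : 0 ≤ B := (norm_nonneg _).trans (hB 0)
  have h : ∀ i j k l : Fin 3, Complex.normSq (a i * b j - a k * b l) ≤ 4 * (A * B) ^ 2 := by
    intro i j k l
    rw [Complex.normSq_eq_norm_sq]
    have h1 : ‖a i * b j - a k * b l‖ ≤ 2 * (A * B) := by
      refine (norm_sub_le _ _).trans ?_
      rw [norm_mul, norm_mul]
      have h2 := mul_le_mul (hA i) (hB j) (norm_nonneg _) hA0
      have h3 := mul_le_mul (hA k) (hB l) (norm_nonneg _) hA0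
      linarith
    calc ‖a i * b j - a k * b l‖ ^ 2 ≤ (2 * (A * B)) ^ 2 := pow_le_pow_left₀ (norm_nonneg _) h1 2
      _ = 4 * (A * B) ^ 2 := by ring
  rw [WLF_nq3]
  have h1 := h 1 2 2 1
  have h2 := h 2 0 0 2
  have h3 := h 0 1 1 0
  have e1 : crs a b 0 = a 1 * b 2 - a 2 * b 1 := rfl
  have e2 : crs a b 1 = a 2 * b 0 - a 0 * b 2 := rfl
  have e3 : crs a b 2 = a 0 * b 1 - a 1 * b 0 := rfl
  rw [e1, e2, e3]
  linarith

theorem WLF_lap_cont (χ : ℂ → ℝ) (hχ : ContDiff ℝ ∞ χ) : Continuous (lap χ) := by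
  unfold lap
  have h : Continuous (iteratedFDeriv ℝ 2 χ) :=
    hχ.continuous_iteratedFDeriv (m := 2) (WithTop.coe_le_coe.2 (le_top (a := ((2 : ℕ) : ℕ∞))))
  have h1 : ∀ v : Fin 2 → ℂ, Continuous fun z => iteratedFDeriv ℝ 2 χ z v := by
    intro v
    exact (ContinuousMultilinearMap.apply ℝ (fun _ : Fin 2 => ℂ) ℝ v).continuous.comp h
  exact continuous_const.mul ((h1 _).add (h1 _))

theorem WLF_lap_zero (χ : ℂ → ℝ) (z : ℂ) (hz : z ∉ tsupport χ) : lap χ z = 0 := by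
  have h : iteratedFDeriv ℝ 2 χ z = 0 := by
    by_contra hne
    exact hz (support_iteratedFDeriv_subset 2 (Function.mem_support.2 hne))
  unfold lap
  rw [h]
  simp

theorem WLF_lap_int (χ : ℂ → ℝ) (hχ : ContDiff ℝ ∞ χ) (hc : HasCompactSupport χ) : Integrable (lap χ) := by
  refine (WLF_lap_cont χ hχ).integrable_of_hasCompactSupport ?_
  apply HasCompactSupport.intro hc
  intro z hz
  exact WLF_lap_zero χ z hz

theorem WLF_lap_scale (g : ℂ → ℝ) (hg : ContDiff ℝ 2 g) (ρ : ℝ) (z : ℂ) :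
    lap (fun z => g (ρ • z)) z = ρ ^ 2 * lap g (ρ • z) := by
  have e : (fun z : ℂ => g (ρ • z)) = g ∘ (ρ • ContinuousLinearMap.id ℝ ℂ) := rfl
  have h1 := (ρ • ContinuousLinearMap.id ℝ ℂ).iteratedFDeriv_comp_right hg z (le_refl (2 : WithTop ℕ∞))
  have h2 : ∀ m : Fin 2 → ℂ, iteratedFDeriv ℝ 2 (fun z : ℂ => g (ρ • z)) z m =
      ρ ^ 2 * iteratedFDeriv ℝ 2 g (ρ • z) m := by
    intro m
    rw [e]
    have h3 := congrArg (fun T => T m) h1
    refine h3.trans ?_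
    show (iteratedFDeriv ℝ 2 g (ρ • z)) (fun i => ρ • m i) = _
    rw [ContinuousMultilinearMap.map_smul_univ (iteratedFDeriv ℝ 2 g (ρ • z)) (fun _ => ρ) m]
    simp
  unfold lap
  rw [h2, h2]
  ring

theorem WLF_lap_sub (g h : ℂ → ℝ) (z : ℂ) (hg : ContDiffAt ℝ 2 g z) (hh : ContDiffAt ℝ 2 h z) :
    lap (fun t => g t - h t) z = lap g z - lap h z := by
  unfold lap
  have h1 : iteratedFDeriv ℝ 2 (fun t => g t - h t) z = iteratedFDeriv ℝ 2 g z -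
      iteratedFDeriv ℝ 2 h z := iteratedFDeriv_sub_apply (i := 2) hg hh
  rw [h1]
  simp only [sub_apply]
  ring

/-! ### the cut-off -/

theorem WLF_eta_smooth : ContDiff ℝ ∞ eta := by
  unfold eta
  refine Real.smoothTransition.contDiff.comp ?_
  have h : ContDiff ℝ ∞ (Complex.normSq : ℂ → ℝ) := by
    have e : (Complex.normSq : ℂ → ℝ) = fun z => z.re * z.re + z.im * z.im := by
      funext z
      exact Complex.normSq_apply z
    rw [e]
    exact (Complex.reCLM.contDiff.mul Complex.reCLM.contDiff).add (Complex.imCLM.contDiff.mul Complex.imCLM.contDiff)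
  exact contDiff_const.sub (contDiff_const.mul h)

theorem WLF_eta_zero {ξ : ℂ} (h : 4 / 5 < ‖ξ‖) : eta ξ = 0 := by
  unfold eta
  apply Real.smoothTransition.zero_of_nonpos
  rw [Complex.normSq_eq_norm_sq]
  nlinarith

/-- the cut-off in the rescaled variable -/
noncomputable def WLF_chi (z : ℂ) : ℝ := eta ((9 / 10 : ℝ) • z) ^ 2

theorem WLF_chi_smooth : ContDiff ℝ ∞ WLF_chi :=
  (WLF_eta_smooth.comp (contDiff_const_smul (9 / 10 : ℝ))).pow 2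

theorem WLF_chi_supp : tsupport WLF_chi ⊆ closedBall 0 (8 / 9) := by
  refine closure_minimal ?_ isClosed_closedBall
  intro z hz
  by_contra hne
  rw [mem_closedBall_zero_iff, not_le] at hne
  apply hz
  unfold WLF_chi
  rw [WLF_eta_zero, zero_pow (by norm_num)]
  rw [norm_smul, Real.norm_of_nonneg (by norm_num)]
  linarith

theorem WLF_chi_cs : HasCompactSupport WLF_chi :=
  HasCompactSupport.of_support_subset_isCompact (isCompact_closedBall 0 (8 / 9)) (subset_tsupport _ |>.trans WLF_chi_supp)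

/-- from two rescaled functions to the estimate -/
theorem WLF_main (F1 F2 g : ℂ → ℝ) (C1 C2 : ℝ) (h1 : ContDiff ℝ ∞ F1) (h2 : ContDiff ℝ ∞ F2)
    (s1 : HasCompactSupport F1) (s2 : HasCompactSupport F2) (i1 : ∫ z, |lap F1 z| ≤ C1) (i2 : ∫ z, |lap F2 z| ≤ C2)
    (hg : ∀ ξ, g ξ = F1 ((10 / 9 : ℝ) • ξ) - F2 ((10 / 9 : ℝ) • ξ)) :
    ContDiff ℝ ∞ g ∧ ∫ ξ, |lap g ξ| ≤ C1 + C2 := by
  have h1' : ContDiff ℝ 2 F1 := h1.of_le (WithTop.coe_le_coe.2 (le_top (a := ((2 : ℕ) : ℕ∞))))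
  have h2' : ContDiff ℝ 2 F2 := h2.of_le (WithTop.coe_le_coe.2 (le_top (a := ((2 : ℕ) : ℕ∞))))
  have hF : ContDiff ℝ ∞ (fun z => F1 z - F2 z) := h1.sub h2
  have hF' : ContDiff ℝ 2 (fun z => F1 z - F2 z) := h1'.sub h2'
  have hge : g = fun ξ => (fun z => F1 z - F2 z) ((10 / 9 : ℝ) • ξ) := funext hg
  refine ⟨?_, ?_⟩
  · rw [hge]
    exact hF.comp (contDiff_const_smul (10 / 9 : ℝ))
  · have e1 : ∀ ξ, |lap g ξ| = (10 / 9 : ℝ) ^ 2 * |lap (fun z => F1 z - F2 z) ((10 / 9 : ℝ) • ξ)| := by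
      intro ξ
      rw [hge, WLF_lap_scale _ hF' (10 / 9 : ℝ) ξ, abs_mul, abs_of_nonneg (by positivity)]
    simp_rw [e1]
    rw [integral_const_mul, Measure.integral_comp_smul volume (fun x => |lap (fun z => F1 z - F2 z) x|) (10 / 9 : ℝ),
      Complex.finrank_real_complex, smul_eq_mul]
    have e2 : (10 / 9 : ℝ) ^ 2 * (|((10 / 9 : ℝ) ^ 2)⁻¹| * ∫ x, |lap (fun z => F1 z - F2 z) x|) =
        ∫ x, |lap (fun z => F1 z - F2 z) x| := by
      rw [abs_of_nonneg (by positivity), ← mul_assoc, mul_inv_cancel₀ (by positivity), one_mul]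
    rw [e2]
    have hi1 := (WLF_lap_int F1 h1 s1).abs
    have hi2 := (WLF_lap_int F2 h2 s2).abs
    have e3 : ∫ x, |lap (fun z => F1 z - F2 z) x| ≤ ∫ x, (|lap F1 x| + |lap F2 x|) := by
      refine integral_mono_of_nonneg (Eventually.of_forall fun x => abs_nonneg _) (hi1.add hi2) (Eventually.of_forall fun x => ?_)
      simp only
      rw [WLF_lap_sub F1 F2 x h1'.contDiffAt h2'.contDiffAt]
      exact abs_sub _ _
    rw [integral_add hi1 hi2] at e3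
    linarith

/-! ### holomorphic vectors -/

theorem WLF_crs_diff (a b : ℂ → E3) (s : Set ℂ) (ha : ∀ i, DifferentiableOn ℂ (fun z => a z i) s)
    (hb : ∀ i, DifferentiableOn ℂ (fun z => b z i) s) (i : Fin 3) : DifferentiableOn ℂ (fun z => crs (a z) (b z) i) s := by
  fin_cases i
  · exact ((ha 1).mul (hb 2)).sub ((ha 2).mul (hb 1))
  · exact ((ha 2).mul (hb 0)).sub ((ha 0).mul (hb 2))
  · exact ((ha 0).mul (hb 1)).sub ((ha 1).mul (hb 0))

theorem WLF_sq_diff (e : ℝ) (a : ℂ → E3) (s : Set ℂ) (ha : ∀ i, DifferentiableOn ℂ (fun z => a z i) s)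
    (k : Fin (3 * 3)) : DifferentiableOn ℂ (fun z => WLF_sq e (a z) k) s :=
  (differentiableOn_const (c := (e : ℂ))).mul ((ha _).mul (ha _))

theorem WLF_app_diff {m n : ℕ} (a : ℂ → Fin m → ℂ) (b : ℂ → Fin n → ℂ) (s : Set ℂ)
    (ha : ∀ i, DifferentiableOn ℂ (fun z => a z i) s) (hb : ∀ i, DifferentiableOn ℂ (fun z => b z i) s)
    (i : Fin (m + n)) : DifferentiableOn ℂ (fun z => Fin.append (a z) (b z) i) s := by
  refine Fin.addCases (fun j => ?_) (fun j => ?_) i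
  · simp only [Fin.append_left]
    exact ha j
  · simp only [Fin.append_right]
    exact hb j

section
variable {d : ℕ} (f : Endo 2 d) (m : ℕ) (ι : Fin 2) (c : ℂ) (κ : ℝ) (γ : ℂ → ℂ)

/-- the lift of the iterate in the tube -/
noncomputable def WLF_G (p : ℂ × ℂ) : E3 := It f m (gp ι c κ γ p)

/-- its derivatives -/
noncomputable def WLF_D (a p : ℂ × ℂ) : E3 := fderiv ℂ (fun q => It f m (gp ι c κ γ q)) p a

theorem WLF_an (hWHO : WHO_stmt) (hγ : DifferentiableOn ℂ γ (ball 0 1)) (p : ℂ × ℂ) (hp : ‖p.1‖ < 1) :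
    (∀ i, AnalyticAt ℂ (fun q => WLF_G f m ι c κ γ q i) p) ∧
      ∀ a i, AnalyticAt ℂ (fun q => WLF_D f m ι c κ γ a q i) p := by
  have hA : AnalyticAt ℂ (fun q => It f m (gp ι c κ γ q)) p := (hWHO d f ι c κ γ m hγ).1 p hp
  refine ⟨fun i => analyticAt_pi_iff.1 hA i, ?_⟩
  intro a i
  have h1 : AnalyticAt ℂ (fderiv ℂ (fun q => It f m (gp ι c κ γ q))) p := hA.fderiv
  have h2 : AnalyticAt ℂ (fun q => (ContinuousLinearMap.apply ℂ E3 a) (fderiv ℂ (fun q => It f m (gp ι c κ γ q)) q)) p :=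
    ((ContinuousLinearMap.apply ℂ E3 a).analyticAt _).fun_comp h1
  exact analyticAt_pi_iff.1 h2 i

theorem WLF_slice (hWHO : WHO_stmt) (hγ : DifferentiableOn ℂ γ (ball 0 1)) (v : ℂ) :
    (∀ i, DifferentiableOn ℂ (fun ξ => WLF_G f m ι c κ γ (ξ, v) i) (ball 0 1)) ∧
      ∀ a i, DifferentiableOn ℂ (fun ξ => WLF_D f m ι c κ γ a (ξ, v) i) (ball 0 1) := by
  have hs : ∀ ξ : ℂ, AnalyticAt ℂ (fun ξ : ℂ => (ξ, v)) ξ := fun ξ => analyticAt_id.prod analyticAt_const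
  refine ⟨fun i ξ hξ => ?_, fun a i ξ hξ => ?_⟩
  · have h := ((WLF_an f m ι c κ γ hWHO hγ (ξ, v) (by simpa using hξ)).1 i).fun_comp
      (f := fun ξ : ℂ => (ξ, v)) (hs ξ)
    exact h.differentiableAt.differentiableWithinAt
  · have h := ((WLF_an f m ι c κ γ hWHO hγ (ξ, v) (by simpa using hξ)).2 a i).fun_comp
      (f := fun ξ : ℂ => (ξ, v)) (hs ξ)
    exact h.differentiableAt.differentiableWithinAt

/-- bounds of the lift -/
theorem WLF_bd {U : Set (PP 2)} {τ C0 α : ℝ} (hWC : WC f U τ κ C0 α) (hT : Tb U τ ι c κ γ) {p : ℂ × ℂ}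
    (hp : p ∈ P2U.TB 1 τ) : Real.exp (-(2 * ((d : ℝ) ^ m * C0 + C0))) ≤ nq (WLF_G f m ι c κ γ p) ∧
      nq (WLF_G f m ι c κ γ p) ≤ Real.exp (2 * ((d : ℝ) ^ m * C0 + C0)) := by
  obtain ⟨h1, -, h3, h4⟩ := hWC.nz ι c γ hT m p hp
  have hpos : 0 < nq (WLF_G f m ι c κ γ p) := by
    refine h1.trans_le ?_
    rw [WLF_nq3]
    unfold pq
    have := Complex.normSq_nonneg (WLF_G f m ι c κ γ p 2)
    show Complex.normSq (WLF_G f m ι c κ γ p 0) + Complex.normSq (WLF_G f m ι c κ γ p 1) ≤ _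
    linarith
  have hd : (0 : ℝ) ≤ (d : ℝ) ^ m := by positivity
  have h5 : |(d : ℝ) ^ m * un f m (gp ι c κ γ p)| ≤ (d : ℝ) ^ m * C0 := by
    rw [abs_mul, abs_of_nonneg hd]
    exact mul_le_mul_of_nonneg_left h4 hd
  change |(1 / 2) * Real.log (nq (WLF_G f m ι c κ γ p)) - (d : ℝ) ^ m * un f m (gp ι c κ γ p)| ≤ C0 at h3
  rw [abs_le] at h3 h5
  rw [← Real.le_log_iff_exp_le hpos, ← Real.log_le_iff_le_exp hpos]
  constructor <;> linarith [h3.1, h3.2, h5.1, h5.2]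

theorem WLF_bd' {U : Set (PP 2)} {τ C0 α : ℝ} (hWC : WC f U τ κ C0 α) (hT : Tb U τ ι c κ γ) {p : ℂ × ℂ}
    (hp : p ∈ P2U.TB 1 τ) (i : Fin 3) : ‖WLF_G f m ι c κ γ p i‖ ≤ Real.exp ((d : ℝ) ^ m * C0 + C0) := by
  have h1 := (WLF_le_nq (WLF_G f m ι c κ γ p) i).trans (WLF_bd f m ι c κ γ hWC hT hp).2
  have h2 : Real.exp (2 * ((d : ℝ) ^ m * C0 + C0)) = Real.exp ((d : ℝ) ^ m * C0 + C0) ^ 2 := by
    rw [← Real.exp_nat_mul]
    norm_num
  rw [h2] at h1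
  exact (sq_le_sq₀ (norm_nonneg _) (Real.exp_pos _).le).1 h1

/-- Cauchy estimates -/
theorem WLF_cauchy (hWHO : WHO_stmt) {U : Set (PP 2)} {τ C0 α : ℝ} (hτ : 0 < τ) (hWC : WC f U τ κ C0 α) (hT : Tb U τ ι c κ γ)
    {ξ v : ℂ} (hξ : ‖ξ‖ ≤ 9 / 10) (hv : ‖v‖ < τ / 2) (i : Fin 3) :
    ‖WLF_D f m ι c κ γ (1, 0) (ξ, v) i‖ ≤ Real.exp ((d : ℝ) ^ m * C0 + C0) / (1 / 20) ∧
      ‖WLF_D f m ι c κ γ (0, 1) (ξ, v) i‖ ≤ Real.exp ((d : ℝ) ^ m * C0 + C0) / (τ / 4) := by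
  have hA : AnalyticAt ℂ (fun q => It f m (gp ι c κ γ q)) (ξ, v) :=
    (hWHO d f ι c κ γ m hT.hd).1 (ξ, v) (show ‖ξ‖ < 1 by linarith)
  have hF := hA.differentiableAt.hasFDerivAt
  constructor
  · have h1 : HasDerivAt (fun ζ : ℂ => (ζ, v)) ((1 : ℂ), (0 : ℂ)) ξ := (hasDerivAt_id ξ).prodMk (hasDerivAt_const ξ v)
    have h2 := hF.comp_hasDerivAt ξ h1
    have h3 := (hasDerivAt_pi.1 h2 i).deriv
    change deriv (fun ζ => WLF_G f m ι c κ γ (ζ, v) i) ξ = WLF_D f m ι c κ γ (1, 0) (ξ, v) i at h3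
    rw [← h3]
    have hcl : closedBall ξ (1 / 20) ⊆ ball (0 : ℂ) 1 := by
      intro z hz
      rw [mem_closedBall, dist_eq_norm] at hz
      rw [mem_ball_zero_iff]
      have := norm_add_le (z - ξ) ξ
      rw [sub_add_cancel] at this
      linarith
    apply Complex.norm_deriv_le_of_forall_mem_sphere_norm_le (by norm_num)
    · have h4 : DifferentiableOn ℂ (fun ζ => WLF_G f m ι c κ γ (ζ, v) i) (closure (ball ξ (1 / 20))) := by
        rw [closure_ball ξ (by norm_num)]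
        exact ((WLF_slice f m ι c κ γ hWHO hT.hd v).1 i).mono hcl
      exact h4.diffContOnCl
    · intro z hz
      apply WLF_bd' f m ι c κ γ hWC hT
      have := hcl (sphere_subset_closedBall hz)
      rw [mem_ball_zero_iff] at this
      exact ⟨this, by simp only; linarith⟩
  · have h1 : HasDerivAt (fun ζ : ℂ => (ξ, ζ)) ((0 : ℂ), (1 : ℂ)) v := (hasDerivAt_const v ξ).prodMk (hasDerivAt_id v)
    have h2 := hF.comp_hasDerivAt v h1
    have h3 := (hasDerivAt_pi.1 h2 i).deriv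
    change deriv (fun ζ => WLF_G f m ι c κ γ (ξ, ζ) i) v = WLF_D f m ι c κ γ (0, 1) (ξ, v) i at h3
    rw [← h3]
    have hcl : closedBall v (τ / 4) ⊆ ball (0 : ℂ) τ := by
      intro z hz
      rw [mem_closedBall, dist_eq_norm] at hz
      rw [mem_ball_zero_iff]
      have := norm_add_le (z - v) v
      rw [sub_add_cancel] at this
      linarith
    apply Complex.norm_deriv_le_of_forall_mem_sphere_norm_le (by positivity)
    · have h4 : DifferentiableOn ℂ (fun ζ => WLF_G f m ι c κ γ (ξ, ζ) i) (closure (ball v (τ / 4))) := by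
        intro z _
        have h5 := ((WLF_an f m ι c κ γ hWHO hT.hd (ξ, z) (show ‖ξ‖ < 1 by linarith)).1 i).fun_comp
          (f := fun ζ : ℂ => (ξ, ζ)) (analyticAt_const.prod analyticAt_id)
        exact h5.differentiableAt.differentiableWithinAt
      exact h4.diffContOnCl
    · intro z hz
      apply WLF_bd' f m ι c κ γ hWC hT
      have := hcl (sphere_subset_closedBall hz)
      rw [mem_ball_zero_iff] at this
      exact ⟨show ‖ξ‖ < 1 by linarith, this⟩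

/-- the numerator -/
noncomputable def WLF_S1 (Λ : ℝ) (p : ℂ × ℂ) : ℝ :=
  nq (crs (WLF_G f m ι c κ γ p) (WLF_D f m ι c κ γ (1, 0) p)) + nq (crs (WLF_G f m ι c κ γ p) (WLF_D f m ι c κ γ (0, 1) p)) +
    Real.exp (-Λ / 2) ^ 2 * nq (WLF_G f m ι c κ γ p) ^ 2

/-- the denominator -/
noncomputable def WLF_S2 (Λ : ℝ) (p : ℂ × ℂ) : ℝ :=
  nq (crs (WLF_G f m ι c κ γ p) (WLF_D f m ι c κ γ (1, 0) p)) + Real.exp (-Λ / 2) ^ 2 * nq (WLF_G f m ι c κ γ p) ^ 2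

theorem WLF_Lf (Λ : ℝ) (p : ℂ × ℂ) (h : 0 < nq (WLF_G f m ι c κ γ p)) :
    Lf f m Λ ι c κ γ p = Real.log (WLF_S1 f m ι c κ γ Λ p) - Real.log (WLF_S2 f m ι c κ γ Λ p) := by
  have he : Real.exp (-Λ) = Real.exp (-Λ / 2) ^ 2 := by
    rw [← Real.exp_nat_mul]
    congr 1
    push_cast
    ring
  have hn : 0 < nq (WLF_G f m ι c κ γ p) ^ 2 := by positivity
  have hE : 0 < Real.exp (-Λ / 2) ^ 2 := by positivity
  have hx := WLF_nq_nonneg (crs (WLF_G f m ι c κ γ p) (WLF_D f m ι c κ γ (1, 0) p))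
  have hy := WLF_nq_nonneg (crs (WLF_G f m ι c κ γ p) (WLF_D f m ι c κ γ (0, 1) p))
  have h1 : Af f m ι c κ γ p (1, 0) + Af f m ι c κ γ p (0, 1) + Real.exp (-Λ) =
      WLF_S1 f m ι c κ γ Λ p / nq (WLF_G f m ι c κ γ p) ^ 2 := by
    show nq (crs (WLF_G f m ι c κ γ p) (WLF_D f m ι c κ γ (1, 0) p)) / nq (WLF_G f m ι c κ γ p) ^ 2 +
      nq (crs (WLF_G f m ι c κ γ p) (WLF_D f m ι c κ γ (0, 1) p)) / nq (WLF_G f m ι c κ γ p) ^ 2 + Real.exp (-Λ) = _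
    rw [he]
    unfold WLF_S1
    field_simp
  have h2 : Af f m ι c κ γ p (1, 0) + Real.exp (-Λ) = WLF_S2 f m ι c κ γ Λ p / nq (WLF_G f m ι c κ γ p) ^ 2 := by
    show nq (crs (WLF_G f m ι c κ γ p) (WLF_D f m ι c κ γ (1, 0) p)) / nq (WLF_G f m ι c κ γ p) ^ 2 + Real.exp (-Λ) = _
    rw [he]
    unfold WLF_S2
    field_simp
  have p1 : 0 < WLF_S1 f m ι c κ γ Λ p := by
    unfold WLF_S1
    positivity
  have p2 : 0 < WLF_S2 f m ι c κ γ Λ p := by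
    unfold WLF_S2
    positivity
  unfold Lf
  rw [h1, h2, Real.log_div p1.ne' hn.ne', Real.log_div p2.ne' hn.ne']
  ring

theorem WLF_nq_cont {n : ℕ} (a : ℂ × ℂ → Fin n → ℂ) (s : Set (ℂ × ℂ)) (ha : ∀ i, ContinuousOn (fun p => a p i) s) :
    ContinuousOn (fun p => nq (a p)) s := by
  unfold nq
  exact continuousOn_finsetSum _ fun i _ => Complex.continuous_normSq.comp_continuousOn (ha i)

theorem WLF_crs_cont (a b : ℂ × ℂ → E3) (s : Set (ℂ × ℂ)) (ha : ∀ i, ContinuousOn (fun z => a z i) s)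
    (hb : ∀ i, ContinuousOn (fun z => b z i) s) (i : Fin 3) : ContinuousOn (fun z => crs (a z) (b z) i) s := by
  fin_cases i
  · exact ((ha 1).mul (hb 2)).sub ((ha 2).mul (hb 1))
  · exact ((ha 2).mul (hb 0)).sub ((ha 0).mul (hb 2))
  · exact ((ha 0).mul (hb 1)).sub ((ha 1).mul (hb 0))

theorem WLF_cont (hWHO : WHO_stmt) {U : Set (PP 2)} {τ C0 α : ℝ} (hWC : WC f U τ κ C0 α) (hT : Tb U τ ι c κ γ) (Λ : ℝ) :
    ContinuousOn (Lf f m Λ ι c κ γ) (P2U.TB 1 τ) := by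
  have hG : ∀ i, ContinuousOn (fun p => WLF_G f m ι c κ γ p i) (P2U.TB 1 τ) := fun i p hp =>
    ((WLF_an f m ι c κ γ hWHO hT.hd p hp.1).1 i).continuousAt.continuousWithinAt
  have hD : ∀ a i, ContinuousOn (fun p => WLF_D f m ι c κ γ a p i) (P2U.TB 1 τ) := fun a i p hp =>
    ((WLF_an f m ι c κ γ hWHO hT.hd p hp.1).2 a i).continuousAt.continuousWithinAt
  have hpos : ∀ p ∈ P2U.TB 1 τ, 0 < nq (WLF_G f m ι c κ γ p) := fun p hp =>
    (Real.exp_pos _).trans_le (WLF_bd f m ι c κ γ hWC hT hp).1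
  have c1 : ∀ a, ContinuousOn (fun p => nq (crs (WLF_G f m ι c κ γ p) (WLF_D f m ι c κ γ a p))) (P2U.TB 1 τ) :=
    fun a => WLF_nq_cont _ _ (WLF_crs_cont _ _ _ hG (hD a))
  have c2 : ContinuousOn (fun p => Real.exp (-Λ / 2) ^ 2 * nq (WLF_G f m ι c κ γ p) ^ 2) (P2U.TB 1 τ) :=
    continuousOn_const.mul ((WLF_nq_cont _ _ hG).pow 2)
  have hx := fun (a p : ℂ × ℂ) => WLF_nq_nonneg (crs (WLF_G f m ι c κ γ p) (WLF_D f m ι c κ γ a p))
  have s1 : ContinuousOn (fun p => Real.log (WLF_S1 f m ι c κ γ Λ p)) (P2U.TB 1 τ) := by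
    refine ContinuousOn.log (((c1 (1, 0)).add (c1 (0, 1))).add c2) fun p hp => ?_
    have h1 := hx (1, 0) p
    have h2 := hx (0, 1) p
    have h3 : 0 < Real.exp (-Λ / 2) ^ 2 * nq (WLF_G f m ι c κ γ p) ^ 2 := by
      have := hpos p hp
      positivity
    have h4 : 0 < nq (crs (WLF_G f m ι c κ γ p) (WLF_D f m ι c κ γ (1, 0) p)) +
      nq (crs (WLF_G f m ι c κ γ p) (WLF_D f m ι c κ γ (0, 1) p)) + Real.exp (-Λ / 2) ^ 2 * nq (WLF_G f m ι c κ γ p) ^ 2 := by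
      linarith
    exact h4.ne'
  have s2 : ContinuousOn (fun p => Real.log (WLF_S2 f m ι c κ γ Λ p)) (P2U.TB 1 τ) := by
    refine ContinuousOn.log ((c1 (1, 0)).add c2) fun p hp => ?_
    have h1 := hx (1, 0) p
    have h3 : 0 < Real.exp (-Λ / 2) ^ 2 * nq (WLF_G f m ι c κ γ p) ^ 2 := by
      have := hpos p hp
      positivity
    have h4 : 0 < nq (crs (WLF_G f m ι c κ γ p) (WLF_D f m ι c κ γ (1, 0) p)) +
      Real.exp (-Λ / 2) ^ 2 * nq (WLF_G f m ι c κ γ p) ^ 2 := by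
      linarith
    exact h4.ne'
  exact (s1.sub s2).congr fun p hp => WLF_Lf f m ι c κ γ Λ p (hpos p hp)

theorem WLF_nonneg (Λ : ℝ) (p : ℂ × ℂ) : 0 ≤ Lf f m Λ ι c κ γ p := by
  have h : ∀ a, 0 ≤ Af f m ι c κ γ p a := fun a => div_nonneg (WLF_nq_nonneg _) (sq_nonneg _)
  have h1 := h (1, 0)
  have h2 := h (0, 1)
  have h3 := Real.exp_pos (-Λ)
  unfold Lf
  refine sub_nonneg.2 (Real.log_le_log (by linarith) (by linarith))

end

theorem WLF_resc {K : ℕ} (H : ℂ → Fin K → ℂ) (h : ∀ i, DifferentiableOn ℂ (fun z => H z i) (ball 0 1)) :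
    DifferentiableOn ℂ (fun z => H ((9 / 10 : ℝ) • z)) (ball 0 1) := by
  refine differentiableOn_pi.2 fun i => ?_
  have h1 : DifferentiableOn ℂ (fun z : ℂ => (9 / 10 : ℝ) • z) (ball 0 1) := by
    simp only [Complex.real_smul]
    fun_prop
  refine (h i).comp h1 ?_
  intro z hz
  rw [mem_ball_zero_iff] at hz ⊢
  rw [norm_smul, Real.norm_of_nonneg (by norm_num)]
  linarith

theorem WLF (hWHO : WHO_stmt) (hWM1 : WM1_stmt) (hWLG : WLG_stmt) : WLF_stmt := by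
  intro d f U hd τ κ C0 α hτ hκ hκ1 hWC Λ m
  have hC0 := hWC.c1
  set Lc : ℝ := (d : ℝ) ^ m * C0 + C0 with hLc
  set B : ℝ := Real.exp Lc with hB
  have hB0 : 0 < B := Real.exp_pos _
  set e : ℝ := Real.exp (-Λ / 2) with he
  have he0 : 0 < e := Real.exp_pos _
  set cc : ℝ := e ^ 2 * Real.exp (-(2 * Lc)) ^ 2 with hcc
  have hcc0 : 0 < cc := by positivity
  set A1 : ℝ := max (B / (1 / 20)) (B / (τ / 4)) with hA1
  have hA10 : 0 < A1 := lt_max_of_lt_left (by positivity)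
  set Mx : ℝ := 12 * (B * A1) ^ 2 + 12 * (B * A1) ^ 2 + e ^ 2 * Real.exp (2 * Lc) ^ 2 with hMx
  have hsup : tsupport WLF_chi ⊆ ball 0 1 := WLF_chi_supp.trans (closedBall_subset_ball (by norm_num))
  obtain ⟨C1, hC1, h1⟩ := hWLG WLF_chi WLF_chi_smooth WLF_chi_cs hsup (3 + 3 + 3 * 3) cc Mx hcc0
  obtain ⟨C2, hC2, h2⟩ := hWLG WLF_chi WLF_chi_smooth WLF_chi_cs hsup (3 + 3 * 3) cc Mx hcc0
  refine ⟨(C1 + C2) * C0, by positivity, ?_⟩
  intro ι c γ hT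
  refine ⟨WLF_cont f m ι c κ γ hWHO hWC hT Λ, fun p _ => WLF_nonneg f m ι c κ γ Λ p, ?_⟩
  intro n N hnN v hv
  have hvτ : ‖v‖ < τ := by linarith
  obtain ⟨hGd, hDd⟩ := WLF_slice f m ι c κ γ hWHO hT.hd v
  -- the two holomorphic vectors
  set H1 : ℂ → Fin (3 + 3 + 3 * 3) → ℂ := fun ξ =>
    Fin.append (Fin.append (crs (WLF_G f m ι c κ γ (ξ, v)) (WLF_D f m ι c κ γ (1, 0) (ξ, v)))
      (crs (WLF_G f m ι c κ γ (ξ, v)) (WLF_D f m ι c κ γ (0, 1) (ξ, v)))) (WLF_sq e (WLF_G f m ι c κ γ (ξ, v))) with hH1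
  set H2 : ℂ → Fin (3 + 3 * 3) → ℂ := fun ξ =>
    Fin.append (crs (WLF_G f m ι c κ γ (ξ, v)) (WLF_D f m ι c κ γ (1, 0) (ξ, v))) (WLF_sq e (WLF_G f m ι c κ γ (ξ, v))) with hH2
  have nH1 : ∀ ξ, nq (H1 ξ) = WLF_S1 f m ι c κ γ Λ (ξ, v) := by
    intro ξ
    rw [hH1]
    simp only
    rw [WLF_nq_append, WLF_nq_append, WLF_nq_sq]
    rfl
  have nH2 : ∀ ξ, nq (H2 ξ) = WLF_S2 f m ι c κ γ Λ (ξ, v) := by
    intro ξ
    rw [hH2]
    simp only
    rw [WLF_nq_append, WLF_nq_sq]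
    rfl
  have dH1 : ∀ i, DifferentiableOn ℂ (fun z => H1 z i) (ball 0 1) :=
    WLF_app_diff _ _ _ (WLF_app_diff _ _ _ (WLF_crs_diff _ _ _ hGd (hDd _)) (WLF_crs_diff _ _ _ hGd (hDd _)))
      (WLF_sq_diff e _ _ hGd)
  have dH2 : ∀ i, DifferentiableOn ℂ (fun z => H2 z i) (ball 0 1) :=
    WLF_app_diff _ _ _ (WLF_crs_diff _ _ _ hGd (hDd _)) (WLF_sq_diff e _ _ hGd)
  -- bounds
  have hbd : ∀ ξ : ℂ, ‖ξ‖ ≤ 9 / 10 → (cc ≤ WLF_S2 f m ι c κ γ Λ (ξ, v) ∧ WLF_S2 f m ι c κ γ Λ (ξ, v) ≤ Mx) ∧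
      (cc ≤ WLF_S1 f m ι c κ γ Λ (ξ, v) ∧ WLF_S1 f m ι c κ γ Λ (ξ, v) ≤ Mx) := by
    intro ξ hξ
    have hp : ((ξ, v) : ℂ × ℂ) ∈ P2U.TB 1 τ := ⟨show ‖ξ‖ < 1 by linarith, hvτ⟩
    obtain ⟨b1, b2⟩ := WLF_bd f m ι c κ γ hWC hT hp
    have x1 : nq (crs (WLF_G f m ι c κ γ (ξ, v)) (WLF_D f m ι c κ γ (1, 0) (ξ, v))) ≤ 12 * (B * A1) ^ 2 :=
      WLF_crs _ _ B A1 (WLF_bd' f m ι c κ γ hWC hT hp)
        (fun i => ((WLF_cauchy f m ι c κ γ hWHO hτ hWC hT hξ hv i).1).trans (le_max_left _ _))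
    have x2 : nq (crs (WLF_G f m ι c κ γ (ξ, v)) (WLF_D f m ι c κ γ (0, 1) (ξ, v))) ≤ 12 * (B * A1) ^ 2 :=
      WLF_crs _ _ B A1 (WLF_bd' f m ι c κ γ hWC hT hp)
        (fun i => ((WLF_cauchy f m ι c κ γ hWHO hτ hWC hT hξ hv i).2).trans (le_max_right _ _))
    have y1 := WLF_nq_nonneg (crs (WLF_G f m ι c κ γ (ξ, v)) (WLF_D f m ι c κ γ (1, 0) (ξ, v)))
    have y2 := WLF_nq_nonneg (crs (WLF_G f m ι c κ γ (ξ, v)) (WLF_D f m ι c κ γ (0, 1) (ξ, v)))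
    have z1 : cc ≤ e ^ 2 * nq (WLF_G f m ι c κ γ (ξ, v)) ^ 2 :=
      mul_le_mul_of_nonneg_left (pow_le_pow_left₀ (Real.exp_pos _).le b1 2) (by positivity)
    have z2 : e ^ 2 * nq (WLF_G f m ι c κ γ (ξ, v)) ^ 2 ≤ e ^ 2 * Real.exp (2 * Lc) ^ 2 :=
      mul_le_mul_of_nonneg_left (pow_le_pow_left₀ (WLF_nq_nonneg _) b2 2) (by positivity)
    have w : 0 ≤ 12 * (B * A1) ^ 2 := by positivity
    unfold WLF_S1 WLF_S2
    rw [hMx]
    refine ⟨⟨?_, ?_⟩, ?_, ?_⟩ <;> linarith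
  have hresc : ∀ z ∈ ball (0 : ℂ) 1, ‖(9 / 10 : ℝ) • z‖ ≤ 9 / 10 := by
    intro z hz
    rw [mem_ball_zero_iff] at hz
    rw [norm_smul, Real.norm_of_nonneg (by norm_num)]
    linarith
  obtain ⟨k1, l1⟩ := h1 (fun z => H1 ((9 / 10 : ℝ) • z)) (WLF_resc H1 dH1) (fun z hz => by
    rw [nH1]
    exact (hbd _ (hresc z hz)).2)
  obtain ⟨k2, l2⟩ := h2 (fun z => H2 ((9 / 10 : ℝ) • z)) (WLF_resc H2 dH2) (fun z hz => by
    rw [nH2]
    exact (hbd _ (hresc z hz)).1)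
  -- the test function
  set g : ℂ → ℝ := fun ξ => eta ξ ^ 2 * Lf f m Λ ι c κ γ (ξ, v) with hg
  have hscal : ∀ ξ : ℂ, (9 / 10 : ℝ) • ((10 / 9 : ℝ) • ξ) = ξ := by
    intro ξ
    rw [smul_smul]
    norm_num
  have hgF : ∀ ξ, g ξ = WLF_chi ((10 / 9 : ℝ) • ξ) * Real.log (nq (H1 ((9 / 10 : ℝ) • ((10 / 9 : ℝ) • ξ)))) -
      WLF_chi ((10 / 9 : ℝ) • ξ) * Real.log (nq (H2 ((9 / 10 : ℝ) • ((10 / 9 : ℝ) • ξ)))) := by
    intro ξ
    have e1 : WLF_chi ((10 / 9 : ℝ) • ξ) = eta ξ ^ 2 := by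
      unfold WLF_chi
      rw [hscal]
    rw [e1, hscal, nH1, nH2, ← mul_sub]
    rw [hg]
    simp only
    by_cases h : ‖ξ‖ ≤ 4 / 5
    · rw [WLF_Lf]
      exact (Real.exp_pos _).trans_le (WLF_bd f m ι c κ γ hWC hT ⟨show ‖ξ‖ < 1 by linarith, hvτ⟩).1
    · rw [WLF_eta_zero (not_le.1 h)]
      ring
  have hcs : ∀ u : ℂ → ℝ, HasCompactSupport (fun z => WLF_chi z * u z) := fun u => WLF_chi_cs.mul_right
  obtain ⟨hgs, hgi⟩ := WLF_main (fun z => WLF_chi z * Real.log (nq (H1 ((9 / 10 : ℝ) • z))))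
    (fun z => WLF_chi z * Real.log (nq (H2 ((9 / 10 : ℝ) • z)))) g C1 C2 k1 k2 (hcs _) (hcs _) l1 l2 hgF
  have hgsup : tsupport g ⊆ closedBall 0 (4 / 5) := by
    refine closure_minimal ?_ isClosed_closedBall
    intro z hz
    by_contra hne
    rw [mem_closedBall_zero_iff, not_le] at hne
    apply hz
    rw [hg]
    simp only
    rw [WLF_eta_zero hne]
    ring
  have hgb : closedBall (0 : ℂ) (4 / 5) ⊆ ball 0 1 := closedBall_subset_ball (by norm_num)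
  have hgc : HasCompactSupport g :=
    HasCompactSupport.of_support_subset_isCompact (isCompact_closedBall 0 (4 / 5)) ((subset_tsupport _).trans hgsup)
  have hlap0 : ∀ z, z ∉ closedBall (0 : ℂ) (4 / 5) → lap g z = 0 := fun z hz => WLF_lap_zero g z fun h => hz (hgsup h)
  -- integration by parts
  have hM : ∀ N : ℕ, ContinuousOn (fun ξ => un f N (gp ι c κ γ (ξ, v))) (ball 0 1) ∧
      ∫ ξ, eta ξ ^ 2 * (Lf f m Λ ι c κ γ (ξ, v) * gt f N ι c κ γ (ξ, v)) =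
        ∫ ξ, lap g ξ * un f N (gp ι c κ γ (ξ, v)) := by
    intro N
    obtain ⟨-, w2, w3⟩ := (hWM1 d f U hd τ κ C0 α hτ hκ hκ1 hWC ι c γ hT N).1 v (by rwa [mem_ball_zero_iff])
    refine ⟨w2.continuousOn, ?_⟩
    rw [← w3 g hgs hgc (hgsup.trans hgb)]
    refine integral_congr_ae (Eventually.of_forall fun ξ => ?_)
    show eta ξ ^ 2 * (Lf f m Λ ι c κ γ (ξ, v) * gt f N ι c κ γ (ξ, v)) =
      eta ξ ^ 2 * Lf f m Λ ι c κ γ (ξ, v) * gt f N ι c κ γ (ξ, v)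
    ring
  have hint : ∀ N : ℕ, Integrable (fun ξ => lap g ξ * un f N (gp ι c κ γ (ξ, v))) := by
    intro N
    have e1 : IntegrableOn (fun ξ => lap g ξ * un f N (gp ι c κ γ (ξ, v))) (closedBall 0 (4 / 5)) :=
      ((WLF_lap_cont g hgs).continuousOn.mul ((hM N).1.mono hgb)).integrableOn_compact (isCompact_closedBall 0 (4 / 5))
    refine (integrableOn_iff_integrable_of_support_subset ?_).1 e1
    intro z hz
    by_contra hne
    apply hz
    simp only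
    rw [hlap0 z hne, zero_mul]
  rw [(hM N).2, (hM n).2, ← integral_sub (hint N) (hint n)]
  have hdn : (0 : ℝ) < (d : ℝ) ^ n := by
    have : (0 : ℝ) < d := by exact_mod_cast (by omega : 0 < d)
    positivity
  have hfin : |∫ ξ, (lap g ξ * un f N (gp ι c κ γ (ξ, v)) - lap g ξ * un f n (gp ι c κ γ (ξ, v)))| ≤
      ∫ ξ, |lap g ξ| * (C0 / (d : ℝ) ^ n) := by
    rw [← Real.norm_eq_abs]
    refine norm_integral_le_of_norm_le ((WLF_lap_int g hgs hgc).abs.mul_const _) (Eventually.of_forall fun ξ => ?_)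
    rw [← mul_sub, Real.norm_eq_abs, abs_mul]
    by_cases h : ξ ∈ closedBall (0 : ℂ) (4 / 5)
    · refine mul_le_mul_of_nonneg_left ?_ (abs_nonneg _)
      have h5 := hgb h
      rw [mem_ball_zero_iff] at h5
      exact hWC.lv ι c γ hT n N hnN (ξ, v) ⟨h5, hvτ⟩
    · rw [hlap0 ξ h, abs_zero, zero_mul, zero_mul]
  refine hfin.trans ?_
  rw [integral_mul_const, mul_div_assoc]
  exact mul_le_mul_of_nonneg_right hgi (by positivity)

end Pool.Agent.P2W
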