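import Pool.Agent.helper37.P2.SpecD
import Pool.Agent.helper30.P2.IS4

/-!
# P2, row DIA: diameters of the images of the half disc
-/

set_option autoImplicit false

open scoped ContDiff Topology
open MeasureTheory Filter Set Metric MvPolynomial Pool.Agent.helper37.QA

namespace Pool.Agent.P2

theorem DIA : DIA_stmt := by
  refine ⟨36 * Real.pi, by positivity, ?_⟩
  intro n g D h1 h2 h3
  have hpi := Real.pi_pos
  have hball : volume (ball (0 : ℂ) 1) = ENNReal.ofReal Real.pi := by
    rw [Complex.volume_ball, ENNReal.ofReal_one, one_pow, one_mul]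
    rw [← NNReal.coe_real_pi, ENNReal.ofReal_coe_nnreal]
  have hsub : ∀ a, g a '' ball 0 1 ⊆ ball (0 : ℂ) 1 := by
    rintro a _ ⟨ξ, hξ, rfl⟩
    exact (h1 a).2.2 ξ hξ
  have hfin : ∀ a, volume (g a '' ball 0 1) ≠ ⊤ := by
    intro a
    exact ((measure_mono (hsub a)).trans_lt measure_ball_lt_top).ne
  have hmeas : ∀ a, MeasurableSet (g a '' ball 0 1) := by
    intro a
    exact measurableSet_ball.image_of_continuousOn_injOn (h1 a).1.continuousOn (h1 a).2.1
  have harea : ∑ a, (volume (g a '' ball 0 1)).toReal ≤ Real.pi := by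
    rw [← ENNReal.toReal_sum (fun a _ => hfin a)]
    have h4 : ∑ a, volume (g a '' ball 0 1) = volume (⋃ a, g a '' ball 0 1) := by
      rw [measure_iUnion (fun a b hab => h2 a b hab) hmeas, tsum_fintype]
    rw [h4]
    refine ENNReal.toReal_le_of_le_ofReal hpi.le ?_
    rw [← hball]
    exact measure_mono (iUnion_subset hsub)
  have hD : ∀ a, D a ^ 2 ≤ 36 * (volume (g a '' ball 0 1)).toReal := by
    intro a
    obtain ⟨hD0, ξ, hξ, ξ', hξ', hle⟩ := h3 a
    have hr : (3 * (2 / 3 : ℝ) / 2) = 1 := by norm_num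
    have hr2 : (5 * (2 / 3 : ℝ) / 4) = 5 / 6 := by norm_num
    have h5 := P2I.IS4_area (X := g a) (r := 2 / 3) (by norm_num) (by rw [hr]; exact (h1 a).1)
      (by rw [hr]; exact (h1 a).2.1) (by rw [hr]; exact hfin a) (s₁ := ξ) (s₂ := ξ')
      (by rw [hr2]; exact closedBall_subset_ball (by norm_num) hξ)
      (by rw [hr2]; exact closedBall_subset_ball (by norm_num) hξ')
    rw [hr] at h5
    exact (pow_le_pow_left₀ hD0 hle 2).trans h5
  have hsum : ∑ a, D a ^ 2 ≤ 36 * Real.pi := by
    refine (Finset.sum_le_sum fun a _ => hD a).trans ?_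
    rw [← Finset.mul_sum]
    linarith
  refine ⟨hsum, ?_⟩
  apply Real.le_sqrt_of_sq_le
  have h6 := sq_sum_le_card_mul_sum_sq (s := (Finset.univ : Finset (Fin n))) (f := D)
  rw [Finset.card_univ, Fintype.card_fin] at h6
  refine h6.trans ?_
  rw [mul_comm]
  exact mul_le_mul_of_nonneg_right hsum (by positivity)

end Pool.Agent.P2
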