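import Pool.Agent.helper37.P2.SpecD

/-!
# P2, row PRB: Case B gives PairAt
-/

set_option autoImplicit false

open scoped ContDiff Topology
open MeasureTheory Filter Set Metric MvPolynomial Pool.Agent.helper37.QA

namespace Pool.Agent.P2

theorem PRB_anti {d : ℕ} {f : Endo 2 d} {Us : ℕ → Set (PP 2)} {K : Set (PP 2)} (h : Core f Us K) :
    ∀ i j : ℕ, i ≤ j → Us j ⊆ Us i := by
  have h1 : Antitone Us := antitone_nat_of_succ_le fun n => subset_closure.trans (h.anti n)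
  exact fun i j hij => h1 hij

theorem PRB_cone {S T : Set (PP 2)} (h : S ⊆ T) : cone S ⊆ cone T := fun _ hx => ⟨hx.1, h hx.2⟩

theorem PRB_K {d : ℕ} {f : Endo 2 d} {Us : ℕ → Set (PP 2)} {K : Set (PP 2)} (h : Core f Us K) (n : ℕ) : K ⊆ Us n := by
  rw [h.inter]
  exact iInter_subset Us n

/-- the tube of the graph of an island -/
theorem PRB_tube (hUNI : UNI_stmt) {d : ℕ} {f : Endo 2 d} {Us : ℕ → Set (PP 2)} {K W : Set (PP 2)} (hC : Core f Us K)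
    {J0 J : ℕ} {τ κ : ℝ} (hJ : J0 ≤ J) (hκ : 0 < κ) (hκ1 : κ ≤ 1 / 10)
    (hT : ∀ (ι : Fin 2) (x y v : ℂ), ‖x‖ ≤ 3 → cht ι x y ∈ cone (Us J0) → ‖v‖ < τ → cht ι x (y + v) ∈ cone W)
    {Z : ℂ → E3} (hZ : Dsc (Us J) Z) {k : ℕ} {ι : Fin 2} {c : ℂ} (hc : ‖c‖ ≤ 2) {g γ : ℂ → ℂ} (hI : NI f Z k ι c κ g γ) :
    ∀ ξ ∈ ball (0 : ℂ) 1, ∀ v : ℂ, ‖v‖ < τ → gp ι c κ γ (ξ, v) ∈ cone W := by
  intro ξ hξ v hv
  have h1 := ((hUNI d f (Us J) Z k ι c κ (hC.trap J) hZ hκ).2 g γ hI.1).2.1 ξ hξ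
  have h2 : gp ι c κ γ (ξ, 0) ∈ cone (Us J0) := PRB_cone (PRB_anti hC J0 J hJ) h1
  have h3 : ‖c + κ * ξ‖ ≤ 3 := by
    have h4 : ‖(κ : ℂ) * ξ‖ ≤ 1 := by
      rw [norm_mul, Complex.norm_real, Real.norm_of_nonneg hκ.le]
      rw [mem_ball_zero_iff] at hξ
      nlinarith [norm_nonneg ξ]
    have := norm_add_le c ((κ : ℂ) * ξ)
    linarith
  have h5 := hT ι (c + κ * ξ) (γ ξ + 0) v h3 h2 hv
  have h6 : gp ι c κ γ (ξ, v) = cht ι (c + κ * ξ) (γ ξ + 0 + v) := by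
    unfold gp
    simp
  rw [h6]
  exact h5

theorem PRB_biU (μ : Measure ℂ) (S : Fin 2 → ℂ → Set ℂ) (T : Set ℂ) (hT : T.Finite) :
    μ (⋃ (ι : Fin 2), ⋃ c ∈ T, S ι c) ≤ ∑ ι, ∑ c ∈ hT.toFinset, μ (S ι c) := by
  refine (measure_iUnion_fintype_le μ _).trans ?_
  refine Finset.sum_le_sum fun ι _ => ?_
  have h1 : (⋃ c ∈ T, S ι c) = ⋃ c ∈ hT.toFinset, S ι c := by
    simp only [Finite.mem_toFinset]
  rw [h1]
  exact measure_biUnion_finset_le _ _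

theorem PRB_card (m : ℕ) (Q : ℕ → Prop) (hQ : ∀ n, Q n → n < m) [DecidablePred Q] :
    Nat.card {n : ℕ // Q n} = ((Finset.range m).filter Q).card := by
  have h : ∀ n, n ∈ ((Finset.range m).filter Q) ↔ Q n := by
    intro n
    simp only [Finset.mem_filter, Finset.mem_range]
    exact ⟨fun h => h.2, fun h => ⟨hQ n h, h⟩⟩
  rw [Nat.subtype_card _ h]

/-- the final count -/
theorem PRB_count (G : Set ℕ) (P : ℕ → Prop) (m A : ℕ) (ε C : ℝ) (hε : 0 < ε)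
    (hG : ((Nat.card {n : ℕ // n < m ∧ n ∉ G} : ℕ) : ℝ) ≤ ε / 4 * m + C)
    (hP : ∀ n : ℕ, n < m → A ≤ n → n ∈ G → P n) :
    ((Nat.card {n : ℕ // 1 ≤ n ∧ n < m ∧ ¬ P n} : ℕ) : ℝ) ≤ ε * m + (C + A) := by
  classical
  rw [PRB_card m _ (fun n hn => hn.1)] at hG
  rw [PRB_card m _ (fun n hn => hn.2.1)]
  have h1 : (Finset.range m).filter (fun n => 1 ≤ n ∧ n < m ∧ ¬ P n) ⊆
      (Finset.range m).filter (fun n => n < m ∧ n ∉ G) ∪ Finset.range A := by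
    intro n hn
    rw [Finset.mem_filter] at hn
    rw [Finset.mem_union, Finset.mem_filter]
    by_cases hA : n < A
    · exact Or.inr (Finset.mem_range.2 hA)
    · refine Or.inl ⟨hn.1, hn.2.2.1, fun hG' => hn.2.2.2 (hP n hn.2.2.1 (not_lt.1 hA) hG')⟩
  have h2 := (Finset.card_le_card h1).trans (Finset.card_union_le _ _)
  rw [Finset.card_range] at h2
  have h3 : (((Finset.range m).filter (fun n => 1 ≤ n ∧ n < m ∧ ¬ P n)).card : ℝ) ≤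
      (((Finset.range m).filter (fun n => n < m ∧ n ∉ G)).card : ℝ) + A := by exact_mod_cast h2
  have h4 : 0 ≤ ε * m := by positivity
  linarith

/-- the sum over the times, for one centre -/
theorem PRB_one (I : Finset ℕ) (L : ℕ) (hI : I.card ≤ L) (M : ℕ) (A : ℕ → Fin M → ENNReal) (B D : ℕ → ENNReal)
    (a b e x : ℝ) (ha : 0 ≤ a) (hb : 0 ≤ b) (he : 0 ≤ e) (hA : ∀ i, ∑ k ∈ I, A k i ≤ ENNReal.ofReal (a * L))
    (hB : ∑ k ∈ I, B k ≤ ENNReal.ofReal (b * L)) (hD : ∀ k ∈ I, D k ≤ ENNReal.ofReal e)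
    (hx : M * a + b + e ≤ x) :
    ∑ k ∈ I, ((∑ i, A k i) + B k + D k) ≤ ENNReal.ofReal (x * L) := by
  rw [Finset.sum_add_distrib, Finset.sum_add_distrib, Finset.sum_comm]
  have hL : (0 : ℝ) ≤ L := Nat.cast_nonneg L
  have h1 : ∑ i : Fin M, ∑ k ∈ I, A k i ≤ ENNReal.ofReal (M * (a * L)) := by
    refine (Finset.sum_le_sum fun i _ => hA i).trans ?_
    rw [Finset.sum_const, Finset.card_univ, Fintype.card_fin, nsmul_eq_mul,
      ENNReal.ofReal_mul (Nat.cast_nonneg M), ENNReal.ofReal_natCast]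
  have h2 : ∑ k ∈ I, D k ≤ ENNReal.ofReal (L * e) := by
    refine (Finset.sum_le_sum hD).trans ?_
    rw [Finset.sum_const, nsmul_eq_mul, ENNReal.ofReal_mul hL, ENNReal.ofReal_natCast]
    gcongr
  refine (add_le_add (add_le_add h1 hB) h2).trans ?_
  rw [← ENNReal.ofReal_add (by positivity) (by positivity), ← ENNReal.ofReal_add (by positivity) (by positivity)]
  apply ENNReal.ofReal_le_ofReal
  calc M * (a * L) + b * L + L * e = (M * a + b + e) * L := by ring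
    _ ≤ x * L := by gcongr

/-- the sum over the times and the centres -/
theorem PRB_all (I : Finset ℕ) (L : ℕ) (T : Finset ℂ) (w : ℕ → ENNReal) (b : ℕ → Fin 2 → ℂ → ENNReal) (x ε : ℝ)
    (hw : ∀ k ∈ I, w k ≤ ∑ ι : Fin 2, ∑ c ∈ T, b k ι c)
    (hb : ∀ ι, ∀ c ∈ T, ∑ k ∈ I, b k ι c ≤ ENNReal.ofReal (x * L)) (hxε : 2 * T.card * x ≤ ε) :
    ∑ k ∈ I, w k ≤ ENNReal.ofReal (ε * L) := by
  have hL : (0 : ℝ) ≤ L := Nat.cast_nonneg L
  refine (Finset.sum_le_sum hw).trans ?_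
  rw [Finset.sum_comm]
  have h1 : ∀ ι : Fin 2, ∑ k ∈ I, ∑ c ∈ T, b k ι c ≤ ENNReal.ofReal (T.card * (x * L)) := by
    intro ι
    rw [Finset.sum_comm]
    refine (Finset.sum_le_sum fun c hc => hb ι c hc).trans ?_
    rw [Finset.sum_const, nsmul_eq_mul, ENNReal.ofReal_mul (Nat.cast_nonneg _), ENNReal.ofReal_natCast]
  refine (Finset.sum_le_sum fun ι _ => h1 ι).trans ?_
  rw [Finset.sum_const, Finset.card_univ, Fintype.card_fin, nsmul_eq_mul]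
  have h2 : ((2 : ℕ) : ENNReal) = ENNReal.ofReal 2 := by norm_num
  rw [h2, ← ENNReal.ofReal_mul (by norm_num)]
  apply ENNReal.ofReal_le_ofReal
  calc 2 * (T.card * (x * L)) = (2 * T.card * x) * L := by ring
    _ ≤ ε * L := by gcongr

theorem PRB (hCHB : CHB_stmt) (hLAT : LAT_stmt) (hUNI : UNI_stmt) (hENP : ENP_stmt) (hTUB : TUB_stmt) (hARE : ARE_stmt)
    (hBK1 : BK1_stmt) (hPR2 : PR2_stmt) : PRB_stmt := by
  intro d f Us K hd hCore Λ1 Kb κ ε hΛ1 hKb hκ hκ1 hε hε1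
  classical
  have hG := hCore.good
  have hfin := hLAT.1 κ hκ
  set T : Finset ℂ := hfin.toFinset with hT
  set q : ℝ := 2 * T.card + 1 with hq
  have hq1 : 1 ≤ q := by
    rw [hq]
    have : (0 : ℝ) ≤ T.card := Nat.cast_nonneg _
    linarith
  have hq0 : 0 < q := by linarith
  obtain ⟨𝒱, CG, G, h𝒱o, hK𝒱, h𝒱U, hCG, hGc, hENP'⟩ := hENP d f Us K hd hCore (ε / 4) (by positivity)
  obtain ⟨𝒱', h𝒱'o, hK𝒱', hARE'⟩ := hARE d f Us K hd hCore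
  obtain ⟨J0, τ, hτ, hCHB'⟩ := hCHB.2 d f Us K hd hCore (𝒱 ∩ 𝒱') (h𝒱o.inter h𝒱'o) (subset_inter hK𝒱 hK𝒱')
  obtain ⟨CB, hCB, hBK1'⟩ := hBK1 d f (Us 0) hd hG κ Kb hκ hκ1 hKb
  set εT : ℝ := ε / (4 * q * CB) with hεT
  have hεT0 : 0 < εT := by positivity
  obtain ⟨ε1, hε10, hTUB1⟩ := hTUB d f (Us 0) hd hG τ κ Λ1 εT hτ hκ hκ1 hΛ1 hεT0
  obtain ⟨M, hM⟩ := hENP' κ ε1 hκ hκ1 hε10
  have hM0 : (0 : ℝ) ≤ M := Nat.cast_nonneg M
  set α : ℝ := ε / (4 * q * (M + 1)) with hα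
  have hα0 : 0 < α := by positivity
  refine ⟨α, hα0, ?_⟩
  intro L N Z hNMD r J1 hr hNon
  obtain ⟨nB, hnB⟩ := hM r hr
  obtain ⟨ρB, hρB, hTUB2⟩ := hTUB1 nB
  obtain ⟨t0, ht0, hENP2⟩ := hnB ρB hρB
  obtain ⟨t, ε2, ht, htt, hε2, hTUB3⟩ := hTUB2 (min t0 τ) (lt_min ht0 hτ)
  set ε' : ℝ := ε / (4 * q) with hε'
  have hε'0 : 0 < ε' := by positivity
  obtain ⟨m0, s0, hs0, hPR2'⟩ := hPR2 d f Us K hd hCore Λ1 Kb κ L N Z hΛ1 hKb hκ hκ1 hNMD ε' ε2 hε'0 hε2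
  obtain ⟨m, nm, s, sB, κB, ε3, hm0m, hs, hss, hsB, hκB, hκB4, hε3, hTUB4⟩ := hTUB3 m0 (min s0 τ) (lt_min hs0 hτ)
  obtain ⟨nA, hARE2⟩ := hARE' κ s ε3 hκ hκ1 hs hε3
  obtain ⟨J2, hJ2⟩ := hPR2' s m hs (hss.trans (min_le_left _ _)) hm0m
  refine ⟨sB, κB, CG + (nm + nA : ℕ), hsB, hκB, hκB4, ?_⟩
  intro m1
  refine ⟨max (max J0 J1) (max (nm + nA + m1 + 1) J2), ?_⟩
  intro J hJ m2 hm2
  have hJ0 : J0 ≤ J := (le_max_left _ _).trans ((le_max_left _ _).trans hJ)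
  have hJ1 : J1 ≤ J := (le_max_right _ _).trans ((le_max_left _ _).trans hJ)
  have hJn : nm + nA + m1 + 1 ≤ J := (le_max_left _ _).trans ((le_max_right _ _).trans hJ)
  have hJJ2 : J2 ≤ J := (le_max_right _ _).trans ((le_max_right _ _).trans hJ)
  obtain ⟨hLJ, hLN, hDsc, hmass, hub⟩ := hNMD.size J
  have hmass1 : 1 ≤ mass f (N J) (Z J) := by
    have : (1 : ℝ) ≤ J := by exact_mod_cast (by omega : 1 ≤ J)
    linarith
  have hDsc0 : Dsc (Us 0) (Z J) := ⟨hDsc.1, fun z hz => PRB_cone (PRB_anti hCore 0 J (Nat.zero_le _)) (hDsc.2 z hz)⟩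
  refine PRB_count G _ m2 (nm + nA) ε CG hε (hGc m2) ?_
  intro n hn hnA hnG
  -- the three kinds of points
  have hSD : ∀ k ∈ Finset.Ico 1 (L J), ∀ c : ℂ, ‖c‖ ≤ 2 → SD f (Us 0) (N J) k (Z J) Kb c := by
    intro k hk c hc
    rw [Finset.mem_Ico] at hk
    exact ⟨by omega, hDsc0, hmass1, hub, hc⟩
  have hF : ∀ (ι : Fin 2) (c : ℂ), ‖c‖ ≤ 2 → ∃ F : Fin M → ℂ → ℂ, ∀ γ : ℂ → ℂ, DifferentiableOn ℂ γ (ball 0 1) →
      (∀ ξ ∈ ball (0 : ℂ) 1, ∀ v ∈ ball (0 : ℂ) (κ * t), gp ι c κ γ (ξ, v) ∈ cone 𝒱) →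
      ¬ EB f n ι c κ γ t nB ρB ε1 → ∃ i, Clo (F i) r γ :=
    fun ι c hc => hENP2 t ht (htt.trans (min_le_left _ _)) n hnG ι c hc
  have hF' : ∀ (ι : Fin 2) (c : ℂ), ∃ F : Fin M → ℂ → ℂ, ‖c‖ ≤ 2 → ∀ γ : ℂ → ℂ, DifferentiableOn ℂ γ (ball 0 1) →
      (∀ ξ ∈ ball (0 : ℂ) 1, ∀ v ∈ ball (0 : ℂ) (κ * t), gp ι c κ γ (ξ, v) ∈ cone 𝒱) →
      ¬ EB f n ι c κ γ t nB ρB ε1 → ∃ i, Clo (F i) r γ := by
    intro ι c
    by_cases hc : ‖c‖ ≤ 2
    · obtain ⟨F, hF⟩ := hF ι c hc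
      exact ⟨F, fun _ => hF⟩
    · exact ⟨fun _ _ => 0, fun h => absurd h hc⟩
  choose F hF2 using hF'
  set A : ℕ → Fin 2 → ℂ → Fin M → ENNReal := fun k ι c i =>
    mz f (N J) (Z J) (Pt f (Z J) k ι c κ (fun γ _ => Clo (F ι c i) r γ)) with hA
  set B : ℕ → Fin 2 → ℂ → ENNReal := fun k ι c =>
    mz f (N J) (Z J) (Pt f (Z J) k ι c κ (fun γ _ => ε2 * m < QR f m (Λ1 * m) s (N J - k) ι c κ γ)) with hB
  set D : ℕ → Fin 2 → ℂ → ENNReal := fun k ι c =>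
    mz f (N J) (Z J) (Pt f (Z J) k ι c κ (fun γ ξ => EB f n ι c κ γ t nB ρB ε1 ∧
      QR f m (Λ1 * m) s (N J - k) ι c κ γ ≤ ε2 * m ∧ ¬ BP f n ι c κ γ sB κB ξ)) with hDd
  have hTc : ∀ c ∈ T, ‖c‖ ≤ 2 := by
    intro c hc
    rw [hT, Finite.mem_toFinset] at hc
    exact hc.1
  have hcov : ∀ k ∈ Finset.Ico 1 (L J), mz f (N J) (Z J) (BPr f (Z J) n k κ sB κB) ≤
      ∑ ι : Fin 2, ∑ c ∈ T, ((∑ i, A k ι c i) + B k ι c + D k ι c) := by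
    intro k hk
    refine (PRB_biU _ _ _ hfin).trans ?_
    refine Finset.sum_le_sum fun ι _ => Finset.sum_le_sum fun c hc => ?_
    have hc2 := hTc c hc
    have hsub : Pt f (Z J) k ι c κ (fun γ ξ => ¬ BP f n ι c κ γ sB κB ξ) ⊆
        ((⋃ i, Pt f (Z J) k ι c κ (fun γ _ => Clo (F ι c i) r γ)) ∪
          Pt f (Z J) k ι c κ (fun γ _ => ε2 * m < QR f m (Λ1 * m) s (N J - k) ι c κ γ)) ∪
          Pt f (Z J) k ι c κ (fun γ ξ => EB f n ι c κ γ t nB ρB ε1 ∧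
            QR f m (Λ1 * m) s (N J - k) ι c κ γ ≤ ε2 * m ∧ ¬ BP f n ι c κ γ sB κB ξ) := by
      rintro z ⟨g, γ, ξ, hI, hξ, hz, hR⟩
      by_cases h1 : EB f n ι c κ γ t nB ρB ε1
      · by_cases h2 : QR f m (Λ1 * m) s (N J - k) ι c κ γ ≤ ε2 * m
        · exact Or.inr ⟨g, γ, ξ, hI, hξ, hz, h1, h2, hR⟩
        · exact Or.inl (Or.inr ⟨g, γ, ξ, hI, hξ, hz, not_le.1 h2⟩)
      · have htube := PRB_tube hUNI hCore hJ0 hκ hκ1 hCHB' hDsc hc2 hI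
        obtain ⟨i, hi⟩ := hF2 ι c hc2 γ hI.1.2.2.1 (fun ξ hξ v hv => by
          have hv' : ‖v‖ < τ := by
            rw [mem_ball_zero_iff] at hv
            have h3 : t ≤ τ := htt.trans (min_le_right _ _)
            nlinarith
          exact PRB_cone (inter_subset_left.trans inter_subset_left) (htube ξ hξ v hv')) h1
        exact Or.inl (Or.inl (mem_iUnion.2 ⟨i, g, γ, ξ, hI, hξ, hz, hi⟩))
    refine (measure_mono hsub).trans ?_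
    refine (measure_union_le _ _).trans (add_le_add ?_ le_rfl)
    refine (measure_union_le _ _).trans (add_le_add ?_ le_rfl)
    exact measure_iUnion_fintype_le _ _
  have hsumA : ∀ (ι : Fin 2) (c : ℂ), ‖c‖ ≤ 2 → ∀ i, ∑ k ∈ Finset.Ico 1 (L J), A k ι c i ≤ ENNReal.ofReal (α * L J) :=
    fun ι c hc i => hNon J hJ1 ι c (F ι c i) hc
  have hsumB : ∀ (ι : Fin 2) (c : ℂ), ‖c‖ ≤ 2 → ∑ k ∈ Finset.Ico 1 (L J), B k ι c ≤ ENNReal.ofReal (ε' * L J) :=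
    fun ι c hc => hJ2 J hJJ2 ι c hc
  have hDle : ∀ (ι : Fin 2) (c : ℂ), ‖c‖ ≤ 2 → ∀ k ∈ Finset.Ico 1 (L J), D k ι c ≤ ENNReal.ofReal (CB * εT) := by
    intro ι c hc k hk
    refine hBK1' (N J) k (Z J) ι c (hSD k hk c hc) _ εT hεT0.le ?_
    intro g γ hI
    rw [Finset.mem_Ico] at hk
    by_cases h1 : EB f n ι c κ γ t nB ρB ε1 ∧ QR f m (Λ1 * m) s (N J - k) ι c κ γ ≤ ε2 * m
    · have htube := PRB_tube hUNI hCore hJ0 hκ hκ1 hCHB' hDsc hc hI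
      have hQA : QA f n s (N J - k) ι c κ γ ≤ ε3 := by
        refine hARE2 ι c γ n (N J - k) hc (by omega) (by omega) hI.1.2.2.1 ?_
        intro ξ hξ v hv
        rw [mem_ball_zero_iff] at hv
        have hv' : ‖v‖ < τ := hv.trans_le (hss.trans (min_le_right _ _))
        exact PRB_cone (inter_subset_left.trans inter_subset_right) (htube ξ hξ v hv')
      obtain ⟨Bad, hBm, hBP, hint⟩ := hTUB4 ι c γ n (N J - k) hc (by omega) (by omega) hI.1.2.2.1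
        (fun ξ hξ v hv => PRB_cone inter_subset_right (htube ξ hξ v (mem_ball_zero_iff.1 hv))) h1.1 h1.2 hQA
      refine ⟨Bad, hBm, ?_, hint⟩
      intro ξ hξ hR
      by_contra hB
      exact hR.2.2 (hBP ξ hξ hB)
    · refine ⟨∅, MeasurableSet.empty, ?_, by simp⟩
      intro ξ _ hR
      exact absurd ⟨hR.1, hR.2.1⟩ h1
  have hIc : (Finset.Ico 1 (L J)).card ≤ L J := by
    rw [Nat.card_Ico]
    omega
  have hx : (M : ℝ) * α + ε' + CB * εT ≤ 3 * ε / (4 * q) := by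
    have e1 : (M : ℝ) * α ≤ ε / (4 * q) := by
      rw [hα, ← mul_div_assoc, div_le_div_iff₀ (by positivity) (by positivity)]
      have : 0 ≤ ε * (4 * q) := by positivity
      nlinarith
    have e2 : CB * εT = ε / (4 * q) := by
      rw [hεT]
      field_simp
    rw [e2, hε']
    have e3 : 3 * ε / (4 * q) = ε / (4 * q) + ε / (4 * q) + ε / (4 * q) := by ring
    linarith
  refine PRB_all (Finset.Ico 1 (L J)) (L J) T _ _ (3 * ε / (4 * q)) ε hcov ?_ ?_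
  · intro ι c hc
    exact PRB_one (Finset.Ico 1 (L J)) (L J) hIc M (fun k i => A k ι c i) (fun k => B k ι c) (fun k => D k ι c) α ε'
      (CB * εT) _ hα0.le hε'0.le (by positivity) (hsumA ι c (hTc c hc)) (hsumB ι c (hTc c hc)) (hDle ι c (hTc c hc)) hx
  · have e1 : 2 * (T.card : ℝ) * (3 * ε / (4 * q)) = (2 * T.card / q) * (3 / 4) * ε := by
      field_simp
    rw [e1]
    have e2 : 2 * (T.card : ℝ) / q ≤ 1 := by
      rw [div_le_one hq0, hq]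
      linarith
    have e3 : 0 ≤ 2 * (T.card : ℝ) / q := by positivity
    nlinarith

end Pool.Agent.P2
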