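import Pool.Agent.helper83.P2.SpecS0

/-!
Project P2, row SGR: properties of the Green function.
-/

set_option autoImplicit false

namespace Pool.Agent.P2

open Metric Filter Topology MeasureTheory
open Pool.Agent.helper37.QA

theorem SGR_zero {d : ℕ} (hd : 2 ≤ d) {A B : ℝ} (h : ∀ n : ℕ, |(d : ℝ) ^ n * A| ≤ B) : A = 0 := by
  by_contra hA
  have hA' : 0 < |A| := abs_pos.2 hA
  have hd1 : (1 : ℝ) < d := by exact_mod_cast (by omega : 1 < d)
  obtain ⟨n, hn⟩ := pow_unbounded_of_one_lt (B / |A|) hd1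
  have h1 := h n
  rw [abs_mul, abs_of_nonneg (by positivity)] at h1
  rw [div_lt_iff₀ hA'] at hn
  linarith

theorem SGR : SGR_stmt := by
  intro k d hd f U u C hU hG
  have hd0 : (0 : ℝ) < d := by exact_mod_cast (by omega : 0 < d)
  have hd1 : (1 : ℝ) < d := by exact_mod_cast (by omega : 1 < d)
  have hmem : ∀ Z ∈ cone U, ∀ n, pmap (iter f.F n) Z ∈ cone U := by
    rintro Z ⟨hZ, hZU⟩ n
    refine ⟨pmap_ne (iter_nd f.nondeg n) hZ, ?_⟩
    rw [← map_iter]
    exact iterate_mem hU hZU n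
  refine ⟨?_, ?_, hmem, ?_⟩
  · have hlim : TendstoUniformlyOn
        (fun (n : ℕ) (Z : Fin (k + 1) → ℂ) => ((d : ℝ) ^ n)⁻¹ * Real.log ‖pmap (iter f.F n) Z‖)
        u atTop (cone U) := by
      rw [Metric.tendstoUniformlyOn_iff]
      intro ε hε
      have h1 : Tendsto (fun n : ℕ => C * ((d : ℝ)⁻¹) ^ n) atTop (𝓝 (C * 0)) :=
        (tendsto_pow_atTop_nhds_zero_of_lt_one (by positivity) (inv_lt_one_of_one_lt₀ hd1)).const_mul C
      rw [mul_zero] at h1
      filter_upwards [h1.eventually (gt_mem_nhds hε)] with n hn Z hZ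
      have h2 := hG n Z hZ
      have hpos : (0 : ℝ) < (d : ℝ) ^ n := by positivity
      rw [Real.dist_eq]
      have h3 : u Z - ((d : ℝ) ^ n)⁻¹ * Real.log ‖pmap (iter f.F n) Z‖ =
          ((d : ℝ) ^ n)⁻¹ * ((d : ℝ) ^ n * u Z - Real.log ‖pmap (iter f.F n) Z‖) := by
        field_simp
      rw [h3, abs_mul, abs_of_pos (inv_pos.2 hpos)]
      refine lt_of_le_of_lt (mul_le_mul_of_nonneg_left h2 (inv_pos.2 hpos).le) ?_
      rw [mul_comm, ← inv_pow]
      exact hn
    refine hlim.continuousOn (Eventually.of_forall fun n => ?_).frequently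
    refine ContinuousOn.mul continuousOn_const ?_
    refine ContinuousOn.log ((pmap_cont (iter f.F n)).norm.continuousOn) ?_
    intro Z hZ
    exact norm_ne_zero_iff.2 (pmap_ne (iter_nd f.nondeg n) hZ.1)
  · intro Z hZ c hc
    have hcZ : c • Z ∈ cone U := cone_smul hZ hc
    have h1 : u (c • Z) - (u Z + Real.log ‖c‖) = 0 := by
      refine SGR_zero hd (B := C + C) fun n => ?_
      have e1 := hG n _ hcZ
      have e2 := hG n _ hZ
      have e3 : Real.log ‖pmap (iter f.F n) (c • Z)‖ =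
          (d : ℝ) ^ n * Real.log ‖c‖ + Real.log ‖pmap (iter f.F n) Z‖ := by
        rw [pmap_smul (iter_hom f.hom n), norm_smul, norm_pow, Real.log_mul, Real.log_pow]
        · push_cast
          ring
        · exact pow_ne_zero _ (norm_ne_zero_iff.2 hc)
        · exact norm_ne_zero_iff.2 (pmap_ne (iter_nd f.nondeg n) hZ.1)
      rw [e3] at e1
      rw [abs_le] at e1 e2 ⊢
      constructor <;> nlinarith [e1.1, e1.2, e2.1, e2.2]
    linarith
  · intro Z hZ n
    have h1 : u (pmap (iter f.F n) Z) - (d : ℝ) ^ n * u Z = 0 := by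
      refine SGR_zero hd (B := C + C) fun m => ?_
      have e1 := hG m _ (hmem Z hZ n)
      have e2 := hG (m + n) _ hZ
      rw [← pmap_iter_add] at e1
      rw [pow_add] at e2
      rw [abs_le] at e1 e2 ⊢
      constructor <;> nlinarith [e1.1, e1.2, e2.1, e2.2]
    linarith

end Pool.Agent.P2
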