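import Pool.Agent.helper37.P2.SpecD
import Pool.Agent.helper30.P2.IS4

/-!
# P2, row UNI: islands are determined by one point
-/

set_option autoImplicit false

open scoped ContDiff Topology
open MeasureTheory Filter Set Metric MvPolynomial Pool.Agent.helper37.QA

namespace Pool.Agent.P2

theorem UNI_pmap {m : ℕ} (G : Fin m → MvPolynomial (Fin m) ℂ) (i : Fin m) :
    Differentiable ℂ (fun x : Fin m → ℂ => pmap G x i) := by
  have h : (fun x : Fin m → ℂ => pmap G x i) =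
      fun x => ∑ s ∈ (G i).support, (G i).coeff s * ∏ j, x j ^ s j := by
    funext x
    exact eval_eq' x (G i)
  rw [h]
  fun_prop

theorem UNI_It {d : ℕ} (f : Endo 2 d) (k : ℕ) {Z : ℂ → E3} (hZ : DifferentiableOn ℂ Z (ball 0 1)) (i : Fin 3) :
    DifferentiableOn ℂ (fun z => It f k (Z z) i) (ball 0 1) :=
  (UNI_pmap (iter f.F k) i).comp_differentiableOn hZ

theorem UNI_cone {d : ℕ} {f : Endo 2 d} {U : Set (PP 2)} (hU : IsTrapping f U) {Z : E3}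
    (hZ : Z ∈ cone U) (n : ℕ) : It f n Z ∈ cone U := by
  obtain ⟨h, hZU⟩ := hZ
  refine ⟨pmap_ne (iter_nd f.nondeg n) h, ?_⟩
  have := iterate_mem hU hZU n
  rwa [map_iter f n h] at this

/-- the coordinate which is one -/
def UNI_a (ι : Fin 2) : Fin 3 := if ι = 0 then 0 else 1

/-- the coordinate `x` -/
def UNI_b (ι : Fin 2) : Fin 3 := if ι = 0 then 1 else 0

theorem UNI_cht (ι : Fin 2) (x y : ℂ) : cht ι x y (UNI_a ι) = 1 ∧ cht ι x y (UNI_b ι) = x ∧ cht ι x y 2 = y := by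
  unfold cht UNI_a UNI_b
  split_ifs <;> simp

/-- the values along an island -/
theorem UNI_val {d : ℕ} {f : Endo 2 d} {Z : ℂ → E3} {k : ℕ} {ι : Fin 2} {c : ℂ} {κ : ℝ} {g γ : ℂ → ℂ}
    (h : Isl f Z k ι c κ g γ) {ξ : ℂ} (hξ : ξ ∈ ball (0 : ℂ) 1) :
    It f k (Z (g ξ)) (UNI_a ι) ≠ 0 ∧
      It f k (Z (g ξ)) (UNI_b ι) / It f k (Z (g ξ)) (UNI_a ι) = c + κ * ξ ∧
      It f k (Z (g ξ)) 2 / It f k (Z (g ξ)) (UNI_a ι) = γ ξ := by
  obtain ⟨a, ha, hI⟩ := h.2.2.2 ξ hξ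
  obtain ⟨h1, h2, h3⟩ := UNI_cht ι (c + κ * ξ) (γ ξ + 0)
  rw [hI]
  simp only [gp, Pi.smul_apply, smul_eq_mul, h1, h2, h3]
  refine ⟨by simpa using ha, ?_, ?_⟩
  · field_simp
  · field_simp
    ring

theorem UNI_eq {d : ℕ} {f : Endo 2 d} {V : Set (PP 2)} {Z : ℂ → E3} {k : ℕ} {ι : Fin 2} {c : ℂ} {κ : ℝ}
    (hD : Dsc V Z) (hκ : 0 < κ) {g γ g' γ' : ℂ → ℂ} (h : Isl f Z k ι c κ g γ) (h' : Isl f Z k ι c κ g' γ')
    {ξ : ℂ} (hξ : ξ ∈ ball (0 : ℂ) 1) (he : g ξ = g' ξ) : EqOn g g' (ball 0 1) ∧ EqOn γ γ' (ball 0 1) := by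
  have hball : ball (0 : ℂ) 1 ∈ 𝓝 ξ := isOpen_ball.mem_nhds hξ
  set X : ℂ → ℂ := fun z => It f k (Z z) (UNI_b ι) / It f k (Z z) (UNI_a ι) with hX
  have hz : g ξ ∈ ball (0 : ℂ) 1 := h.2.1 ξ hξ
  have hne : It f k (Z (g ξ)) (UNI_a ι) ≠ 0 := (UNI_val h hξ).1
  have hA : AnalyticAt ℂ X (g ξ) := by
    have h1 := (UNI_It f k hD.1 (UNI_b ι)).analyticAt (isOpen_ball.mem_nhds hz)
    have h2 := (UNI_It f k hD.1 (UNI_a ι)).analyticAt (isOpen_ball.mem_nhds hz)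
    exact h1.div h2 hne
  have hg : HasDerivAt g (deriv g ξ) ξ := (h.1.differentiableAt hball).hasDerivAt
  have hcomp : HasDerivAt (fun u => X (g u)) (deriv X (g ξ) * deriv g ξ) ξ :=
    (hA.differentiableAt.hasDerivAt).comp ξ hg
  have hlin : HasDerivAt (fun u : ℂ => c + κ * u) ((κ : ℂ)) ξ := by
    have := ((hasDerivAt_id ξ).const_mul (κ : ℂ)).const_add c
    simpa using this
  have hev : (fun u => X (g u)) =ᶠ[𝓝 ξ] fun u : ℂ => c + κ * u := by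
    filter_upwards [hball] with u hu
    exact (UNI_val h hu).2.1
  have h3 : deriv X (g ξ) * deriv g ξ = κ := hcomp.unique (hlin.congr_of_eventuallyEq hev)
  have hX' : deriv X (g ξ) ≠ 0 := by
    intro h0
    rw [h0, zero_mul] at h3
    have : (κ : ℂ) ≠ 0 := by exact_mod_cast hκ.ne'
    exact this h3.symm
  have hev2 : ∀ᶠ u in 𝓝 ξ, X (g u) = X (g' u) := by
    filter_upwards [hball] with u hu
    have h4 := (UNI_val h hu).2.1
    have h5 := (UNI_val h' hu).2.1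
    rw [hX]
    simp only
    rw [h4, h5]
  have hev3 := P2I.IS4_locinv hA hX' hg.continuousAt
    ((h'.1.differentiableAt hball).continuousAt) rfl he.symm hev2
  have hEq : EqOn g g' (ball 0 1) :=
    (h.1.analyticOnNhd isOpen_ball).eqOn_of_preconnected_of_eventuallyEq
      (h'.1.analyticOnNhd isOpen_ball) (convex_ball _ _).isPreconnected hξ hev3
  refine ⟨hEq, ?_⟩
  intro u hu
  have h6 := (UNI_val h hu).2.2
  have h7 := (UNI_val h' hu).2.2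
  rw [← h6, ← h7, hEq hu]

theorem UNI : UNI_stmt := by
  intro d f V Z k ι c κ hV hD hκ
  have hκ' : (κ : ℂ) ≠ 0 := by exact_mod_cast hκ.ne'
  have hpt : ∀ (g γ g' γ' : ℂ → ℂ) (ξ ξ' : ℂ), Isl f Z k ι c κ g γ → Isl f Z k ι c κ g' γ' →
      ξ ∈ ball (0 : ℂ) 1 → ξ' ∈ ball (0 : ℂ) 1 → g ξ = g' ξ' → ξ = ξ' := by
    intro g γ g' γ' ξ ξ' h h' hξ hξ' he
    have h1 := (UNI_val h hξ).2.1
    have h2 := (UNI_val h' hξ').2.1
    rw [he, h2] at h1
    exact (mul_left_cancel₀ hκ' (add_left_cancel h1)).symm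
  refine ⟨?_, ?_⟩
  · intro g γ g' γ' ξ ξ' h h' hξ hξ' he
    have h1 := hpt g γ g' γ' ξ ξ' h h' hξ hξ' he
    subst h1
    exact ⟨rfl, UNI_eq hD hκ h h' hξ he⟩
  · intro g γ h
    refine ⟨?_, ?_, ?_⟩
    · intro ξ hξ ξ' hξ' he
      exact hpt g γ g γ ξ ξ' h h hξ hξ' he
    · intro ξ hξ
      obtain ⟨a, ha, hI⟩ := h.2.2.2 ξ hξ
      have h1 := UNI_cone (f := f) hV (hD.2 _ (h.2.1 ξ hξ)) k
      rw [hI] at h1
      have h2 := cone_smul h1 (inv_ne_zero ha)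
      rwa [smul_smul, inv_mul_cancel₀ ha, one_smul] at h2
    · classical
      have e1 : EqOn g ((ball (0 : ℂ) 1).indicator g) (ball 0 1) := fun ξ hξ => (indicator_of_mem hξ g).symm
      have e2 : EqOn γ ((ball (0 : ℂ) 1).indicator γ) (ball 0 1) := fun ξ hξ => (indicator_of_mem hξ γ).symm
      refine ⟨(ball (0 : ℂ) 1).indicator g, (ball (0 : ℂ) 1).indicator γ, ⟨⟨?_, ?_, ?_, ?_⟩, ?_, ?_⟩, e1, e2⟩
      · exact h.1.congr fun ξ hξ => (e1 hξ).symm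
      · intro ξ hξ
        rw [← e1 hξ]
        exact h.2.1 ξ hξ
      · exact h.2.2.1.congr fun ξ hξ => (e2 hξ).symm
      · intro ξ hξ
        rw [← e1 hξ]
        obtain ⟨a, ha, hI⟩ := h.2.2.2 ξ hξ
        refine ⟨a, ha, ?_⟩
        rw [hI]
        show a • cht ι (c + κ * ξ) (γ ξ + 0) = a • cht ι (c + κ * ξ) ((ball (0 : ℂ) 1).indicator γ ξ + 0)
        rw [← e2 hξ]
      · intro ξ hξ
        exact indicator_of_notMem hξ g
      · intro ξ hξ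
        exact indicator_of_notMem hξ γ

end Pool.Agent.P2
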