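import Pool.Agent.helper83.P2.SpecX

/-!
Project P2, row XCL: the closing theorem of block X.
-/

set_option autoImplicit false

namespace Pool.Agent.P2

open Metric Set Filter Topology Finset

open Classical in
theorem XCL_bad {ι : Type} (E E' : ι → ι → Prop) (ν : ℕ → Option ι) (m i : ℕ)
    (h : ∀ p ∈ Finset.Ico (2 * i * 2 ^ m) ((2 * i + 1) * 2 ^ m) ×ˢ
      Finset.Ico ((2 * i + 1) * 2 ^ m) ((2 * i + 2) * 2 ^ m),
      (∃ b b', ν p.1 = some b ∧ ν p.2 = some b' ∧ E b b') ↔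
      ∃ b b', ν p.1 = some b ∧ ν p.2 = some b' ∧ E' b b') : bad E ν m i = bad E' ν m i :=
  congrArg Finset.card (Finset.filter_congr fun p hp => not_congr (h p hp))

theorem XCL (hXC1 : XC1_stmt) (hXC2 : XC2_stmt) : XCL_stmt := by
  intro Ω _ f U ι _ P ν m0 M T hf hU hP hg hM hsum
  by_contra hcon
  set E : ι → ι → Prop := fun b b' => ∃ N, 0 < N ∧ N ≤ T ∧ Edge f (P b) (P b') N with hE
  set E' : ι → ι → Prop := fun b b' => E b b' ∧ (∃ k < 2 ^ M, ν k = some b) ∧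
    ∃ k < 2 ^ M, ν k = some b' with hE'
  have hasym : ∀ b b', E' b b' → ¬ E' b' b := by
    rintro b b' ⟨⟨N, hN0, hNT, hN⟩, ⟨k, hk, hkb⟩, -⟩ ⟨⟨N', hN0', hNT', hN'⟩, -, -⟩
    obtain ⟨g, hgd, hgb, hgU⟩ := hg k hk b hkb
    obtain ⟨z, hz, hz'⟩ := hXC1 Ω f U (P b) (P b') N N' g hf hU (hP b) hN hN' (by omega)
      hgd hgb hgU
    exact hcon ⟨z, hz, N + N', by omega, by omega, hz'⟩
  have h1 := hXC2 ι E' ν m0 M hasym hM
  have h2 : ∀ m ∈ Finset.Ico m0 M, ∀ i ∈ range (2 ^ (M - m - 1)),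
      bad E' ν m i = bad E ν m i := by
    intro m hm i hi
    rw [Finset.mem_Ico] at hm
    rw [Finset.mem_range] at hi
    have hle : (2 * i + 2) * 2 ^ m ≤ 2 ^ M := by
      calc (2 * i + 2) * 2 ^ m = (i + 1) * (2 * 2 ^ m) := by ring
        _ ≤ 2 ^ (M - m - 1) * (2 * 2 ^ m) := Nat.mul_le_mul_right _ hi
        _ = 2 ^ M := by
            rw [show 2 * 2 ^ m = 2 ^ (m + 1) by ring, ← pow_add]
            congr 1
            omega
    have hle2 : (2 * i + 1) * 2 ^ m ≤ 2 ^ M :=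
      (Nat.mul_le_mul_right _ (by omega)).trans hle
    refine XCL_bad E' E ν m i fun p hp => ?_
    rw [Finset.mem_product, Finset.mem_Ico, Finset.mem_Ico] at hp
    refine ⟨?_, ?_⟩
    · rintro ⟨b, b', hb, hb', h⟩
      exact ⟨b, b', hb, hb', h.1⟩
    · rintro ⟨b, b', hb, hb', h⟩
      exact ⟨b, b', hb, hb', h, ⟨p.1, by omega, hb⟩, ⟨p.2, by omega, hb'⟩⟩
  have h3 : ∑ m ∈ Finset.Ico m0 M, (∑ i ∈ range (2 ^ (M - m - 1)),
      (bad E' ν m i : ℝ) / 4 ^ m) / 2 ^ (M - m - 1) =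
      ∑ m ∈ Finset.Ico m0 M, (∑ i ∈ range (2 ^ (M - m - 1)),
      (bad E ν m i : ℝ) / 4 ^ m) / 2 ^ (M - m - 1) := by
    refine Finset.sum_congr rfl fun m hm => ?_
    congr 1
    refine Finset.sum_congr rfl fun i hi => ?_
    rw [h2 m hm i hi]
  rw [h3] at h1
  exact absurd h1 (not_le.2 hsum)

end Pool.Agent.P2
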