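import Pool.Agent.helper83.P2.SpecX

/-!
Project P2, row XPE: the chain converges to a periodic chain.
-/

set_option autoImplicit false

namespace Pool.Agent.P2

open Metric Set Filter Topology Finset

theorem XPE_bound (δ : ℕ → ℝ) (h0 : ∀ k, δ k ≤ 1 / 2)
    (h : ∀ k, δ (k + 1) ≤ 3 / 4 * max (δ k) (max (δ (k + 1)) (δ (k + 2)))) :
    ∀ n k, δ k ≤ (3 / 4) ^ (min k n) / 2 := by
  intro n
  induction n with
  | zero => intro k; simpa using h0 k
  | succ n ih =>
    intro k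
    cases k with
    | zero => simpa using h0 0
    | succ k =>
      have e1 : δ k ≤ (3 / 4) ^ (min k n) / 2 := ih k
      have e2 : δ (k + 1) ≤ (3 / 4) ^ (min k n) / 2 :=
        (ih (k + 1)).trans (div_le_div_of_nonneg_right
          (pow_le_pow_of_le_one (by norm_num) (by norm_num) (by omega)) (by norm_num))
      have e3 : δ (k + 2) ≤ (3 / 4) ^ (min k n) / 2 :=
        (ih (k + 2)).trans (div_le_div_of_nonneg_right
          (pow_le_pow_of_le_one (by norm_num) (by norm_num) (by omega)) (by norm_num))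
      calc δ (k + 1) ≤ 3 / 4 * max (δ k) (max (δ (k + 1)) (δ (k + 2))) := h k
        _ ≤ 3 / 4 * ((3 / 4) ^ (min k n) / 2) :=
            mul_le_mul_of_nonneg_left (max_le e1 (max_le e2 e3)) (by norm_num)
        _ = (3 / 4) ^ (min (k + 1) (n + 1)) / 2 := by
            rw [Nat.add_min_add_right, pow_succ]; ring

theorem XPE_lim {h : ℂ × ℂ → ℂ} (hh : Ctr h) {s : ℕ → ℂ × ℂ} {p : ℂ × ℂ} (hs : ∀ k, s k ∈ Qd)
    (hp : p ∈ Qd) (hl : Tendsto s atTop (𝓝 p)) :
    Tendsto (fun k => h (s k)) atTop (𝓝 (h p)) := by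
  rw [tendsto_iff_norm_sub_tendsto_zero]
  have h1 := (tendsto_iff_norm_sub_tendsto_zero.1 hl).const_mul (3 / 4 : ℝ)
  rw [mul_zero] at h1
  exact squeeze_zero (fun k => norm_nonneg _) (fun k => hh.2 _ (hs k) _ hp) h1

theorem XPE_mem {p : ℂ × ℂ} : p ∈ Qd ↔ ‖p.1‖ ≤ 1 / 4 ∧ ‖p.2‖ ≤ 1 / 4 := by
  rw [mem_closedBall_zero_iff, Prod.norm_def, max_le_iff]

theorem XPE_mk {p q : ℂ × ℂ} (hp : p ∈ Qd) (hq : q ∈ Qd) : ((p.1, q.2) : ℂ × ℂ) ∈ Qd :=
  XPE_mem.2 ⟨(XPE_mem.1 hp).1, (XPE_mem.1 hq).2⟩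

theorem XPE_conv (s : ℕ → ℂ × ℂ) (hs : ∀ k, s k ∈ Qd)
    (hd : ∀ k, ‖s (k + 1) - s k‖ ≤ (3 / 4) ^ k / 2) : ∃ a ∈ Qd, Tendsto s atTop (𝓝 a) := by
  have h1 : CauchySeq s := by
    refine cauchySeq_of_le_geometric (3 / 4) (1 / 2) (by norm_num) fun n => ?_
    rw [dist_comm, dist_eq_norm]
    refine (hd n).trans (le_of_eq ?_)
    ring
  obtain ⟨a, ha⟩ := cauchySeq_tendsto_of_complete h1
  exact ⟨a, isClosed_closedBall.mem_of_tendsto ha (Eventually.of_forall hs), ha⟩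

theorem XPE : XPE_stmt := by
  intro X V z hX hV hX2 hV2 hz h1 h2
  have hXe : ∀ k, X (2 * k) = X 0 := by
    intro k
    induction k with
    | zero => rfl
    | succ k ih => rw [show 2 * (k + 1) = 2 * k + 2 by ring, hX2, ih]
  have hXo : ∀ k, X (2 * k + 1) = X 1 := by
    intro k
    induction k with
    | zero => rfl
    | succ k ih => rw [show 2 * (k + 1) + 1 = (2 * k + 1) + 2 by ring, hX2, ih]
  have hVe : ∀ k, V (2 * k) = V 0 := by
    intro k
    induction k with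
    | zero => rfl
    | succ k ih => rw [show 2 * (k + 1) = 2 * k + 2 by ring, hV2, ih]
  have hVo : ∀ k, V (2 * k + 1) = V 1 := by
    intro k
    induction k with
    | zero => rfl
    | succ k ih => rw [show 2 * (k + 1) + 1 = (2 * k + 1) + 2 by ring, hV2, ih]
  set δ : ℕ → ℝ := fun k => ‖z (k + 2) - z k‖ with hδ
  have hδ0 : ∀ k, δ k ≤ 1 / 2 := by
    intro k
    have e1 := mem_closedBall_zero_iff.1 (hz (k + 2))
    have e2 := mem_closedBall_zero_iff.1 (hz k)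
    calc δ k ≤ ‖z (k + 2)‖ + ‖z k‖ := norm_sub_le _ _
      _ ≤ 1 / 4 + 1 / 4 := add_le_add e1 e2
      _ = 1 / 2 := by norm_num
  have hcross : ∀ k, ‖(((z (k + 3)).1, (z (k + 2)).2) : ℂ × ℂ) - ((z (k + 1)).1, (z k).2)‖ ≤
      max (δ (k + 1)) (δ k) := by
    intro k
    rw [Prod.mk_sub_mk, Prod.norm_mk]
    refine max_le_max ?_ ?_
    · exact norm_fst_le (z (k + 3) - z (k + 1))
    · exact norm_snd_le (z (k + 2) - z k)
  have hstep1 : ∀ k, ‖(z (k + 2)).1 - (z k).1‖ ≤ 3 / 4 * max (δ (k + 1)) (δ k) := by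
    intro k
    have e1 : (z (k + 2)).1 = X k ((z (k + 3)).1, (z (k + 2)).2) := by
      have := h1 (k + 2)
      rwa [hX2] at this
    rw [e1, h1 k]
    refine ((hX k).2 _ (XPE_mk (hz _) (hz _)) _ (XPE_mk (hz _) (hz _))).trans ?_
    exact mul_le_mul_of_nonneg_left (hcross k) (by norm_num)
  have hstep2 : ∀ k, ‖(z (k + 3)).2 - (z (k + 1)).2‖ ≤ 3 / 4 * max (δ (k + 1)) (δ k) := by
    intro k
    have e1 : (z (k + 3)).2 = V k ((z (k + 3)).1, (z (k + 2)).2) := by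
      have := h2 (k + 2)
      rwa [hV2] at this
    rw [e1, h2 k]
    refine ((hV k).2 _ (XPE_mk (hz _) (hz _)) _ (XPE_mk (hz _) (hz _))).trans ?_
    exact mul_le_mul_of_nonneg_left (hcross k) (by norm_num)
  have hrec : ∀ k, δ (k + 1) ≤ 3 / 4 * max (δ k) (max (δ (k + 1)) (δ (k + 2))) := by
    intro k
    have e1 := hstep1 (k + 1)
    have e2 := hstep2 k
    change ‖z (k + 3) - z (k + 1)‖ ≤ _
    rw [Prod.norm_def]
    refine max_le (e1.trans ?_) (e2.trans ?_)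
    · refine mul_le_mul_of_nonneg_left ?_ (by norm_num)
      exact max_le ((le_max_right _ _).trans (le_max_right _ _))
        ((le_max_left _ _).trans (le_max_right _ _))
    · refine mul_le_mul_of_nonneg_left ?_ (by norm_num)
      exact max_le ((le_max_left _ _).trans (le_max_right _ _)) (le_max_left _ _)
  have hδk : ∀ k, δ k ≤ (3 / 4) ^ k / 2 := by
    intro k
    have := XPE_bound δ hδ0 hrec k k
    rwa [min_self] at this
  have hpow : ∀ j k : ℕ, k ≤ j → ((3 / 4 : ℝ)) ^ j / 2 ≤ (3 / 4) ^ k / 2 := fun j k hjk =>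
    div_le_div_of_nonneg_right
      (pow_le_pow_of_le_one (by norm_num) (by norm_num) hjk) (by norm_num)
  obtain ⟨a, ha, hla⟩ := XPE_conv (fun k => z (2 * k)) (fun k => hz _) fun k => by
    change ‖z (2 * k + 2) - z (2 * k)‖ ≤ _
    exact (hδk (2 * k)).trans (hpow _ _ (by omega))
  obtain ⟨b, hb, hlb⟩ := XPE_conv (fun k => z (2 * k + 1)) (fun k => hz _) fun k => by
    change ‖z (2 * k + 1 + 2) - z (2 * k + 1)‖ ≤ _
    exact (hδk (2 * k + 1)).trans (hpow _ _ (by omega))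
  have hla' : Tendsto (fun k => z (2 * k + 2)) atTop (𝓝 a) :=
    hla.comp (tendsto_add_atTop_nat 1)
  have ta1 : Tendsto (fun k => (z (2 * k)).1) atTop (𝓝 a.1) :=
    (continuous_fst.tendsto a).comp hla
  have ta2 : Tendsto (fun k => (z (2 * k)).2) atTop (𝓝 a.2) :=
    (continuous_snd.tendsto a).comp hla
  have tb1 : Tendsto (fun k => (z (2 * k + 1)).1) atTop (𝓝 b.1) :=
    (continuous_fst.tendsto b).comp hlb
  have tb2 : Tendsto (fun k => (z (2 * k + 1)).2) atTop (𝓝 b.2) :=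
    (continuous_snd.tendsto b).comp hlb
  have ta1' : Tendsto (fun k => (z (2 * k + 2)).1) atTop (𝓝 a.1) :=
    (continuous_fst.tendsto a).comp hla'
  have ta2' : Tendsto (fun k => (z (2 * k + 2)).2) atTop (𝓝 a.2) :=
    (continuous_snd.tendsto a).comp hla'
  refine ⟨a, ha, b, hb, hla, ?_, ?_, ?_, ?_⟩
  · refine tendsto_nhds_unique ta1 ?_
    have e := XPE_lim (hX 0) (s := fun k => ((z (2 * k + 1)).1, (z (2 * k)).2))
      (fun k => XPE_mk (hz _) (hz _)) (XPE_mk hb ha) (tb1.prodMk_nhds ta2)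
    refine e.congr fun k => ?_
    change X 0 ((z (2 * k + 1)).1, (z (2 * k)).2) = (z (2 * k)).1
    rw [← hXe k]
    exact (h1 (2 * k)).symm
  · refine tendsto_nhds_unique tb2 ?_
    have e := XPE_lim (hV 0) (s := fun k => ((z (2 * k + 1)).1, (z (2 * k)).2))
      (fun k => XPE_mk (hz _) (hz _)) (XPE_mk hb ha) (tb1.prodMk_nhds ta2)
    refine e.congr fun k => ?_
    change V 0 ((z (2 * k + 1)).1, (z (2 * k)).2) = (z (2 * k + 1)).2
    rw [← hVe k]
    exact (h2 (2 * k)).symm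
  · refine tendsto_nhds_unique tb1 ?_
    have e := XPE_lim (hX 1) (s := fun k => ((z (2 * k + 2)).1, (z (2 * k + 1)).2))
      (fun k => XPE_mk (hz _) (hz _)) (XPE_mk ha hb) (ta1'.prodMk_nhds tb2)
    refine e.congr fun k => ?_
    change X 1 ((z (2 * k + 2)).1, (z (2 * k + 1)).2) = (z (2 * k + 1)).1
    rw [← hXo k]
    exact (h1 (2 * k + 1)).symm
  · refine tendsto_nhds_unique ta2' ?_
    have e := XPE_lim (hV 1) (s := fun k => ((z (2 * k + 2)).1, (z (2 * k + 1)).2))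
      (fun k => XPE_mk (hz _) (hz _)) (XPE_mk ha hb) (ta1'.prodMk_nhds tb2)
    refine e.congr fun k => ?_
    change V 1 ((z (2 * k + 2)).1, (z (2 * k + 1)).2) = (z (2 * k + 2)).2
    rw [← hVo k]
    exact (h2 (2 * k + 1)).symm

end Pool.Agent.P2
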